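import Mathlib
import Pool.Agent.H52.AD.RedIso
import Pool.Agent.H52.CS.Defs

/-!
# The action on the reduction (module H42 OD ACT)

The elements `h ∈ H ≤ Gr` act on `red 2 W`: `(h v) x = v (π x)` for every `π ∈ 𝒢` with `h f = f ∘ π`.

PROOF.  Let `hst : Stb 𝒢 W`, `ρ = rediso_op hst`.  For `π ∈ 𝒢` let `T_π` be the operator `v ↦ v ∘ π` of `red 2 W`
(`red_stb`; restrict `LinearMap.funLeft`).  If `π, π' ∈ 𝒢` give the same operator on `W` then `T_π = T_π'`: an element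
of `red 2 W` is the reduction of an integer valued `w ∈ W`, `w ∘ π = w ∘ π'` (over `ℚ`, so over `ℤ`).  For `h ∈ H` choose
`π_h ∈ 𝒢` with `h f = f ∘ π_h` (`mem_Gr`: `h f = f ∘ π⁻¹`, take `π_h = π⁻¹`), and let `ρV h = T_(π_h)`.  It is
multiplicative: `(h h') f = h (h' f) = (f ∘ π_h') ∘ π_h = f ∘ (π_h' π_h)`, and `T_(π_h) T_(π_h') v = (v ∘ π_h') ∘ π_h`.
-/

namespace Pool.Agent.H42.OD

open Module Pool.Agent.H52.AD Pool.Agent.H52.CS

theorem od_key {X : Type} {W : Submodule ℚ (X → ℚ)} (π π' : X → X)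
    (h : ∀ (f : W) (x : X), (f : X → ℚ) (π x) = (f : X → ℚ) (π' x)) (v : red 2 W) (x : X) :
    (v : X → ZMod 2) (π x) = (v : X → ZMod 2) (π' x) := by
  obtain ⟨v, w, hw, rfl⟩ := v
  have h1 : ((w (π x) : ℤ) : ℚ) = ((w (π' x) : ℤ) : ℚ) := h ⟨_, hw⟩ x
  have h2 : w (π x) = w (π' x) := by exact_mod_cast h1
  show ((w (π x) : ℤ) : ZMod 2) = ((w (π' x) : ℤ) : ZMod 2)
  rw [h2]

/-- the operator `v ↦ v ∘ π` -/
def odT {X : Type} {𝒢 : Subgroup (Equiv.Perm X)} {W : Submodule ℚ (X → ℚ)} (hst : Stb 𝒢 W)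
    (π : Equiv.Perm X) (hπ : π ∈ 𝒢) : Module.End (ZMod 2) (red 2 W) where
  toFun v := ⟨fun x => (v : X → ZMod 2) (π x), red_stb 2 hst π hπ _ v.2⟩
  map_add' _ _ := rfl
  map_smul' _ _ := rfl

theorem od_act {X : Type} {𝒢 : Subgroup (Equiv.Perm X)}
    {W : Submodule ℚ (X → ℚ)} (hst : Stb 𝒢 W) (H : Subgroup (W ≃ₗ[ℚ] W)) (hH : H ≤ Gr hst) :
    ∃ ρV : H →* Module.End (ZMod 2) (red 2 W), ∀ (h : H), ∀ π ∈ 𝒢,
      (∀ (f : W) (x : X), ((h : W ≃ₗ[ℚ] W) f : X → ℚ) x = (f : X → ℚ) (π x)) →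
      ∀ (v : red 2 W) (x : X), (ρV h v : X → ZMod 2) x = (v : X → ZMod 2) (π x) := by
  have hex : ∀ h : H, ∃ π : Equiv.Perm X, π ∈ 𝒢 ∧
      ∀ (f : W) (x : X), ((h : W ≃ₗ[ℚ] W) f : X → ℚ) x = (f : X → ℚ) (π x) := by
    intro h
    obtain ⟨π, hπ, h1⟩ := (mem_Gr hst _).1 (hH h.2)
    exact ⟨π⁻¹, inv_mem hπ, h1⟩
  choose P hP hP2 using hex
  refine ⟨{ toFun := fun h => odT hst (P h) (hP h), map_one' := ?_, map_mul' := ?_ }, ?_⟩
  · ext v x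
    show (v : X → ZMod 2) (P 1 x) = (v : X → ZMod 2) x
    refine od_key (fun x => P 1 x) (fun x => x) (fun f x => ?_) v x
    exact (hP2 1 f x).symm
  · intro h h'
    ext v x
    show (v : X → ZMod 2) (P (h * h') x) = (v : X → ZMod 2) (P h' (P h x))
    refine od_key (fun x => P (h * h') x) (fun x => P h' (P h x)) (fun f x => ?_) v x
    have h1 := hP2 (h * h') f x
    have h2 : (((h * h' : H) : W ≃ₗ[ℚ] W) f : X → ℚ) x = (f : X → ℚ) (P h' (P h x)) := by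
      have e1 : ((h * h' : H) : W ≃ₗ[ℚ] W) f = (h : W ≃ₗ[ℚ] W) ((h' : W ≃ₗ[ℚ] W) f) := rfl
      rw [e1, hP2 h, hP2 h']
    rw [← h2]
    exact h1.symm
  · intro h π hπ h1 v x
    show (v : X → ZMod 2) (P h x) = (v : X → ZMod 2) (π x)
    refine od_key (fun x => P h x) (fun x => π x) (fun f x => ?_) v x
    rw [← h1 f x]
    exact (hP2 h f x).symm

end Pool.Agent.H42.OD
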