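import Mathlib

/-!
# Equidistribution of the sums (module H42 OD CNT; Mathlib only)

`X` a finite set with an involution `c` without fixed points, `X₁` a section of `c` (`c x ∈ X₁ ↔ x ∉ X₁`),
`card X = 2 g`, `R` a finite additive group, `a : X → R` such that `R` is generated by the `a x`, `x ∈ X₁`, and every
element of `R` has order at most two.  For a type `Φ` let `t Φ = ∑_{x ∈ X₁ ∩ Φ} a x`.  Then for `B ⊆ R`:
`#{Φ | t Φ ∈ B} |R| ≤ 2^g |B|` (in fact equality).

PROOF.  The types are in bijection with the functions `s : X₁ → ZMod 2` (`s x = 1` iff `x ∈ Φ`): injective since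
`Φ` is determined by `Φ ∩ X₁` (for `x ∉ X₁`, `c x ∈ X₁` and `x ∈ Φ ↔ c x ∉ Φ`), so `|X₁| = g`: `X` is the disjoint
union of `X₁` and `c X₁`.  Let `F : (X₁ → ZMod 2) →+ R` be the additive map `s ↦ ∑ x, (s x).val • a x` (well defined
since `2 a x = 0`; or use `R` as a module over `ZMod 2`).  It is surjective (its range is a subgroup that contains the
generators), so every fibre has `|ker F| = 2^g / |R|` elements (`AddSubgroup`, `card_eq_card_quotient_mul_card_subgroup`)
and `#{s | F s ∈ B} |R| = |B| |ker F| |R| = |B| 2^g`.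
-/

namespace Pool.Agent.H42.OD

private theorem odc_card {X : Type} [Fintype X] (c : Equiv.Perm X) (g : ℕ)
    (hX : Fintype.card X = 2 * g) (p : X → Prop) (hp : ∀ x, p (c x) ↔ ¬ p x) :
    Nat.card {x // p x} = g := by
  classical
  have h1 : Nat.card {x // p x} = Nat.card {x // ¬ p x} := by
    refine Nat.card_congr (Equiv.subtypeEquiv c.symm fun x => ?_)
    have h2 := hp (c.symm x)
    rw [Equiv.apply_symm_apply] at h2
    exact h2
  have h2 := Fintype.card_subtype_compl p
  have h3 := Fintype.card_subtype_le p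
  rw [Nat.card_eq_fintype_card, Nat.card_eq_fintype_card] at h1
  rw [Nat.card_eq_fintype_card]
  omega

open Classical in
private theorem odc_fib {G R : Type} [AddCommGroup G] [Finite G] [AddCommGroup R] [Finite R]
    (F : G →+ R) (hF : Function.Surjective F) (B : Set R) :
    Nat.card {s : G // F s ∈ B} * Nat.card R = Nat.card G * Nat.card B := by
  have hft : Fintype G := Fintype.ofFinite G
  have hft' : Fintype R := Fintype.ofFinite R
  have hfib : ∀ r : R, Nat.card {s : G // F s = r} = Nat.card {s : G // F s = 0} := by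
    intro r
    obtain ⟨t, ht⟩ := hF r
    refine Nat.card_congr (Equiv.subtypeEquiv (Equiv.subRight t) fun s => ?_)
    rw [Equiv.subRight_apply, map_sub, ht, sub_eq_zero]
  have h1 : ∀ C : Set R, Nat.card {s : G // F s ∈ C} =
      Nat.card C * Nat.card {s : G // F s = 0} := by
    intro C
    have e : {s : G // F s ∈ C} ≃ Σ r : C, {s : G // F s = r} :=
      { toFun := fun s => ⟨⟨F s.1, s.2⟩, ⟨s.1, rfl⟩⟩
        invFun := fun q => ⟨q.2.1, by rw [q.2.2]; exact q.1.2⟩
        left_inv := fun s => rfl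
        right_inv := fun q => by
          obtain ⟨⟨r, hr⟩, ⟨s, hs⟩⟩ := q
          simp only at hs
          subst hs
          rfl }
    rw [Nat.card_congr e, Nat.card_sigma]
    rw [Finset.sum_congr rfl fun (r : C) _ => hfib r, Finset.sum_const, Finset.card_univ,
      smul_eq_mul, Nat.card_eq_fintype_card (α := C)]
  have h2 := h1 Set.univ
  have h3 : Nat.card {s : G // F s ∈ (Set.univ : Set R)} = Nat.card G :=
    Nat.card_congr (Equiv.subtypeUnivEquiv fun s => Set.mem_univ _)
  rw [h3, Nat.card_univ] at h2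
  rw [h1 B, h2]
  ring

open Classical in
theorem od_count {X : Type} [Fintype X] (c : Equiv.Perm X) (hcc : ∀ x, c (c x) = x) (g : ℕ)
    (hX : Fintype.card X = 2 * g) (p : X → Prop) (hp : ∀ x, p (c x) ↔ ¬ p x) (R : Type)
    [AddCommGroup R] [Finite R] (h2 : ∀ r : R, r + r = 0) (a : X → R)
    (ha : AddSubgroup.closure {r | ∃ x, p x ∧ a x = r} = ⊤) (B : Set R) :
    Nat.card {Φ : Set X // (∀ x, c x ∈ Φ ↔ x ∉ Φ) ∧
      ∑ x, (if p x ∧ x ∈ Φ then a x else 0) ∈ B} * Nat.card R ≤ 2 ^ g * Nat.card B := by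
  have hS := odc_card c g hX p hp
  have hz : ∀ r : R, ∃ f : ZMod 2 →+ R, f 1 = r := by
    intro r
    refine ⟨ZMod.lift 2 ⟨zmultiplesHom R r, ?_⟩, ?_⟩
    · rw [zmultiplesHom_apply]
      have : ((2 : ℕ) : ℤ) = 1 + 1 := by norm_num
      rw [this, add_smul, one_smul]
      exact h2 r
    · have h3 := ZMod.lift_coe 2 ⟨zmultiplesHom R r, by
        rw [zmultiplesHom_apply]
        have : ((2 : ℕ) : ℤ) = 1 + 1 := by norm_num
        rw [this, add_smul, one_smul]
        exact h2 r⟩ 1
      rw [Int.cast_one] at h3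
      rw [h3]
      exact one_smul _ _
  choose φ hφ using fun x : {x // p x} => hz (a x)
  obtain ⟨F, hF⟩ : ∃ F : ({x // p x} → ZMod 2) →+ R, ∀ s, F s = ∑ x, φ x (s x) := by
    refine ⟨∑ x, (φ x).comp (Pi.evalAddMonoidHom _ x), fun s => ?_⟩
    rw [AddMonoidHom.finsetSum_apply]
    rfl
  have hsurj : Function.Surjective F := by
    rw [← AddMonoidHom.range_eq_top, ← top_le_iff, ← ha, AddSubgroup.closure_le]
    rintro r ⟨x, hx, rfl⟩
    refine ⟨Pi.single ⟨x, hx⟩ 1, ?_⟩
    rw [hF, Finset.sum_eq_single ⟨x, hx⟩]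
    · rw [Pi.single_eq_same, hφ]
    · intro y _ hy
      rw [Pi.single_eq_of_ne hy, map_zero]
    · intro h
      exact absurd (Finset.mem_univ _) h
  have hval : ∀ Φ : Set X, F (fun x => if (x : X) ∈ Φ then 1 else 0) =
      ∑ x, (if p x ∧ x ∈ Φ then a x else 0) := by
    intro Φ
    rw [hF]
    have h3 : ∀ x : {x // p x}, φ x (if (x : X) ∈ Φ then 1 else 0) =
        if (x : X) ∈ Φ then a x else 0 := by
      intro x
      split_ifs
      · exact hφ x
      · exact map_zero _
    rw [Finset.sum_congr rfl fun x _ => h3 x]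
    have h4 : ∀ x : X, (if p x ∧ x ∈ Φ then a x else 0) =
        if p x then (if x ∈ Φ then a x else 0) else 0 := by
      intro x
      by_cases hx : p x
      · by_cases hx' : x ∈ Φ
        · rw [if_pos ⟨hx, hx'⟩, if_pos hx, if_pos hx']
        · rw [if_neg (fun h => hx' h.2), if_pos hx, if_neg hx']
      · rw [if_neg (fun h => hx h.1), if_neg hx]
    have h5 := Finset.sum_subtype (p := p) (F := inferInstance) (Finset.univ.filter p)
      (fun x => by simp)
      (fun x => if x ∈ Φ then a x else 0)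
    rw [Finset.sum_filter] at h5
    rw [Finset.sum_congr rfl fun x _ => h4 x]
    exact h5.symm
  have hle : Nat.card {Φ : Set X // (∀ x, c x ∈ Φ ↔ x ∉ Φ) ∧
      ∑ x, (if p x ∧ x ∈ Φ then a x else 0) ∈ B} ≤
        Nat.card {s : {x // p x} → ZMod 2 // F s ∈ B} := by
    refine Nat.card_le_card_of_injective
      (fun Φ => ⟨fun x => if (x : X) ∈ Φ.1 then 1 else 0, by rw [hval]; exact Φ.2.2⟩) ?_
    rintro ⟨Φ, hΦ⟩ ⟨Ψ, hΨ⟩ h
    have h3 : (fun x : {x // p x} => if (x : X) ∈ Φ then (1 : ZMod 2) else 0) =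
        fun x : {x // p x} => if (x : X) ∈ Ψ then (1 : ZMod 2) else 0 := congrArg Subtype.val h
    have h4 : ∀ x : X, p x → (x ∈ Φ ↔ x ∈ Ψ) := by
      intro x hx
      have h5 := congrFun h3 ⟨x, hx⟩
      simp only at h5
      by_cases h6 : x ∈ Φ <;> by_cases h7 : x ∈ Ψ
      · exact ⟨fun _ => h7, fun _ => h6⟩
      · rw [if_pos h6, if_neg h7] at h5
        exact absurd h5 one_ne_zero
      · rw [if_neg h6, if_pos h7] at h5
        exact absurd h5.symm one_ne_zero
      · exact ⟨fun h => absurd h h6, fun h => absurd h h7⟩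
    refine Subtype.ext (Set.ext fun x => ?_)
    by_cases hx : p x
    · exact h4 x hx
    · have h5 : p (c x) := (hp x).2 hx
      have h6 := h4 (c x) h5
      rw [hΦ.1 x, hΨ.1 x] at h6
      exact not_iff_not.1 h6
  have hG : Nat.card ({x // p x} → ZMod 2) = 2 ^ g := by
    rw [Nat.card_fun, hS, Nat.card_zmod]
  calc _ ≤ Nat.card {s : {x // p x} → ZMod 2 // F s ∈ B} * Nat.card R :=
        Nat.mul_le_mul_right _ hle
    _ = _ := by rw [odc_fib F hsurj B, hG]

end Pool.Agent.H42.OD
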