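import Mathlib
import Pool.Agent.H52.AD.RedIso
import Pool.Agent.H52.CS.Defs

/-!
# Isomorphic simple spaces have isomorphic reductions modulo two (module H42 OD RED)

`W` simple, `H ≤ Γ = Gr` a finite subgroup of odd order with `Γ = H ∪ -H`, `φ : W → (X → ℚ)` a nonzero equivariant map:
there is an injective equivariant map `ψ` from `red 2 W` to `X → ZMod 2` with range `red 2 (range φ)`.

PROOF.  Copy the proof of `red_iso` in `Pool/Agent/H52/AD/RedIso.lean` with `p = 2` and `H` instead of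
`(rediso_op hst).range` in the application of `lat_iso` (`rediso_lat` gives `Lat` for the range, hence for `H`).  The
only change is in the equivariance of `ψ`: for `π ∈ 𝒢` let `γ = rediso_op hst π⁻¹ ∈ Γ`; if `γ ∈ H` proceed as there; if
`γ w = - δ w` with `δ ∈ H` then for `f ∈ L`, `γ f = - δ f`, and `θ (γ f) = - θ (δ f) ≡ - δ (θ f) = γ (θ f)` modulo
`2 L'` by `lat_iso` for `δ` (`θ` is linear).
-/

namespace Pool.Agent.H42.OD

open Module Pool.Agent.H52.AD Pool.Agent.H52.CS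

/-- The general form, for a prime `p` that does not divide the order of `H`. -/
theorem red_iso_gen {X : Type} [Fintype X] {c : Equiv.Perm X} {𝒢 : Subgroup (Equiv.Perm X)}
    {W : Submodule ℚ (X → ℚ)} (hW : Smp c 𝒢 W) (H : Subgroup (W ≃ₗ[ℚ] W)) (hH : H ≤ Gr hW.2.2.1)
    [Finite H] (p : ℕ) [Fact p.Prime] (hpH : ¬ p ∣ Nat.card H)
    (hneg : ∀ γ ∈ Gr hW.2.2.1, γ ∈ H ∨ ∃ δ ∈ H, ∀ w, γ w = - δ w)
    (φ : W →ₗ[ℚ] (X → ℚ)) (hφ : Eqv 𝒢 φ) (h0 : φ ≠ 0) :
    ∃ ψ : red p W →ₗ[ZMod p] (X → ZMod p), Function.Injective ψ ∧ Eqv 𝒢 ψ ∧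
      LinearMap.range ψ = red p (LinearMap.range φ) := by
  have hinj := schur hW φ hφ h0
  have hst : Stb 𝒢 W := hW.2.2.1
  have hsub : Eqv 𝒢 W.subtype := fun π _ f f' h x => h x
  have hL := rediso_lat hst W.subtype (Submodule.subtype_injective W) hsub
  have hL' := rediso_lat hst φ hinj hφ
  have hLH : Lat H (rediso_L W.subtype) := ⟨hL.fg, hL.span, fun γ hγ => hL.st γ (hH hγ)⟩
  have hLH' : Lat H (rediso_L φ) := ⟨hL'.fg, hL'.span, fun γ hγ => hL'.st γ (hH hγ)⟩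
  obtain ⟨θ, hθ1', hθ2⟩ := lat_iso p Fact.out H hpH (rediso_L W.subtype) (rediso_L φ) hLH hLH'
  have hθ1 : ∀ γ ∈ (rediso_op hst).range, ∀ v v' : rediso_L W.subtype, (v' : W) = γ v →
      ∃ w : rediso_L φ, (θ v' : W) - γ (θ v) = (p : ℤ) • (w : W) := by
    intro γ hγ v v' hv
    rcases hneg γ hγ with h | ⟨δ, hδ, h⟩
    · exact hθ1' γ h v v' hv
    · obtain ⟨w, hw⟩ := hθ1' δ hδ v (-v') (by
        rw [Submodule.coe_neg, hv, h, neg_neg])
      refine ⟨-w, ?_⟩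
      rw [map_neg, Submodule.coe_neg] at hw
      rw [h, Submodule.coe_neg, smul_neg, ← hw]
      abel
  have key : ∀ f f' : rediso_L W.subtype, rediso_rd p W.subtype f = rediso_rd p W.subtype f' →
      rediso_rd p φ (θ f) = rediso_rd p φ (θ f') := by
    intro f f' h
    obtain ⟨w, hw⟩ := rediso_rd_zero p W.subtype (f - f') (by rw [map_sub, h, sub_self])
    have h1 : θ f - θ f' = (p : ℤ) • θ w := by rw [← map_sub, hw, map_zsmul]
    have h2 := rediso_rd_smul p φ (θ w)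
    rw [← h1, map_sub, sub_eq_zero] at h2
    exact h2
  choose s hs using rediso_surj (W := W) p
  let ψ₀ : red p W →+ (X → ZMod p) :=
    { toFun := fun u => rediso_rd p φ (θ (s u))
      map_zero' := by
        have h1 := key (s 0) 0 (by rw [hs, map_zero]; rfl)
        rw [h1, map_zero, map_zero]
      map_add' := fun u v => by
        have h1 := key (s (u + v)) (s u + s v) (by rw [hs, map_add, hs, hs]; rfl)
        rw [h1, map_add, map_add] }
  have hψ : ∀ f : rediso_L W.subtype, ∀ u : red p W, rediso_rd p W.subtype f = u →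
      ψ₀ u = rediso_rd p φ (θ f) := by
    intro f u hu
    exact key (s u) f (by rw [hs, hu])
  have hψinj : Function.Injective ψ₀ := by
    rw [injective_iff_map_eq_zero]
    intro u hu
    obtain ⟨f, hf⟩ := rediso_surj p u
    rw [hψ f u hf] at hu
    obtain ⟨w, hw⟩ := rediso_rd_zero p φ (θ f) hu
    obtain ⟨w', hw'⟩ := hθ2 f ⟨w, congrArg Subtype.val hw⟩
    have h1 : f = (p : ℤ) • w' := Subtype.ext hw'
    apply Subtype.ext
    rw [← hf, h1, rediso_rd_smul]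
    rfl
  have hψeq : ∀ π ∈ 𝒢, ∀ u u' : red p W, (∀ x, (u' : X → ZMod p) x = (u : X → ZMod p) (π x)) →
      ∀ x, ψ₀ u' x = ψ₀ u (π x) := by
    intro π hπ u u' huu x
    obtain ⟨f, hf⟩ := rediso_surj p u
    obtain ⟨γ, hγ⟩ : ∃ γ, γ = rediso_op hst ⟨π⁻¹, 𝒢.inv_mem hπ⟩ := ⟨_, rfl⟩
    have hγmem : γ ∈ (rediso_op hst).range := ⟨_, hγ.symm⟩
    have hγa : ∀ (v : W) (x : X), (γ v : X → ℚ) x = (v : X → ℚ) (π x) := by
      intro v x
      rw [hγ, rediso_op_apply]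
      change (v : X → ℚ) ((π⁻¹)⁻¹ x) = _
      rw [inv_inv]
    have hf1 : γ f ∈ rediso_L W.subtype := hL.st γ hγmem f f.2
    obtain ⟨w, hw⟩ := (rediso_mem _ _).mp f.2
    have e1 : rediso_rd p W.subtype ⟨γ f, hf1⟩ = u' := by
      rw [rediso_rd_of p W.subtype ⟨γ f, hf1⟩ (fun x => w (π x))
        (fun x => by
          change (γ f : X → ℚ) x = _
          rw [hγa]
          exact hw (π x))]
      funext x
      rw [huu, ← hf, rediso_rd_of p W.subtype f w hw]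
    rw [hψ _ u' e1, hψ f u hf]
    obtain ⟨w1, hw1⟩ := hθ1 γ hγmem f ⟨γ f, hf1⟩ rfl
    have hg : γ (θ f : W) ∈ rediso_L φ := hL'.st γ hγmem _ (θ f).2
    have e2 : θ ⟨γ f, hf1⟩ - ⟨γ (θ f : W), hg⟩ = (p : ℤ) • w1 := Subtype.ext hw1
    have e3 := rediso_rd_smul p φ w1
    rw [← e2, map_sub, sub_eq_zero] at e3
    obtain ⟨w2, hw2⟩ := (rediso_mem _ _).mp (θ f).2
    rw [e3, rediso_rd_of p φ ⟨γ (θ f : W), hg⟩ (fun x => w2 (π x)) (fun x => by
      rw [hφ π hπ (θ f : W) (γ (θ f : W)) (hγa _) x]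
      exact hw2 (π x)), rediso_rd_of p φ (θ f) w2 hw2]
  let ψ : red p W →ₗ[ZMod p] (X → ZMod p) := ψ₀.toZModLinearMap p
  have hψψ : ∀ u, ψ u = ψ₀ u := fun u => rfl
  refine ⟨ψ, hψinj, hψeq, ?_⟩
  have hle : LinearMap.range ψ ≤ red p (LinearMap.range φ) := by
    rintro _ ⟨u, rfl⟩
    rw [hψψ]
    exact rediso_rd_mem p φ _
  apply Submodule.eq_of_le_of_finrank_eq hle
  rw [LinearMap.finrank_range_of_inj (f := ψ) hψinj, red_finrank, red_finrank,
    LinearMap.finrank_range_of_inj hinj]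


theorem red_iso_two {X : Type} [Fintype X] {c : Equiv.Perm X} {𝒢 : Subgroup (Equiv.Perm X)}
    {W : Submodule ℚ (X → ℚ)} (hW : Smp c 𝒢 W) (H : Subgroup (W ≃ₗ[ℚ] W)) (hH : H ≤ Gr hW.2.2.1)
    [Finite H] (hodd : Odd (Nat.card H))
    (hneg : ∀ γ ∈ Gr hW.2.2.1, γ ∈ H ∨ ∃ δ ∈ H, ∀ w, γ w = - δ w)
    (φ : W →ₗ[ℚ] (X → ℚ)) (hφ : Eqv 𝒢 φ) (h0 : φ ≠ 0) :
    ∃ ψ : red 2 W →ₗ[ZMod 2] (X → ZMod 2), Function.Injective ψ ∧ Eqv 𝒢 ψ ∧
      LinearMap.range ψ = red 2 (LinearMap.range φ) := by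
  refine red_iso_gen hW H hH 2 ?_ hneg φ hφ h0
  intro h
  rw [← Nat.not_even_iff_odd] at hodd
  exact hodd (even_iff_two_dvd.2 h)

end Pool.Agent.H42.OD
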