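import Mathlib

/-!
# A subgroup of index two of odd order (module H42 OD HLF; Mathlib only)

`G` a finite group of order `2 m`, `m` odd, `z` a central element of order two.

PROOF.  `N = Subgroup.zpowers z` is normal (central) of order two and index `m`, so by Schur-Zassenhaus
(`Subgroup.exists_right_complement'_of_coprime`) it has a complement `H`, `|H| = m`.  Since `z ∉ H` (odd order) and
`H` has index two, `x ∈ H` iff `z x ∉ H`: if both were in `H` then `z ∈ H`; if neither, both would be in the
same coset (`Subgroup.mul_mem_iff_of_index_two` or directly: every `x` is `h` or `z h` with `h ∈ H`).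
-/

namespace Pool.Agent.H42.OD

theorem exists_half {G : Type*} [Group G] [Finite G] (z : G) (hz : ∀ x, z * x = x * z) (h1 : z ≠ 1)
    (h2 : z * z = 1) (m : ℕ) (hm : Odd m) (hG : Nat.card G = 2 * m) :
    ∃ H : Subgroup G, Nat.card H = m ∧ ∀ x, x ∈ H ↔ z * x ∉ H := by
  classical
  have ho : orderOf z = 2 := orderOf_eq_prime (by rw [pow_two]; exact h2) h1
  have hcard : Nat.card (Subgroup.zpowers z) = 2 := by rw [Nat.card_zpowers, ho]
  have hm0 : 0 < m := hm.pos
  have hnorm : (Subgroup.zpowers z).Normal := by
    constructor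
    intro n hn g
    obtain ⟨k, rfl⟩ := Subgroup.mem_zpowers_iff.1 hn
    have hc : Commute z g := hz g
    have h3 : g * z ^ k * g⁻¹ = z ^ k := by
      rw [← (hc.zpow_left k).eq, mul_assoc, mul_inv_cancel, mul_one]
    rw [h3]
    exact Subgroup.zpow_mem_zpowers z k
  have hidx : (Subgroup.zpowers z).index = m := by
    have h3 := Subgroup.card_mul_index (Subgroup.zpowers z)
    rw [hcard, hG] at h3
    omega
  have hcop : Nat.Coprime (Nat.card (Subgroup.zpowers z)) (Subgroup.zpowers z).index := by
    rw [hcard, hidx]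
    exact (Nat.coprime_two_left).2 hm
  obtain ⟨H, hH⟩ := Subgroup.exists_right_complement'_of_coprime hcop
  have hHc : Nat.card H = m := by
    have h3 := hH.card_mul_card
    rw [hcard, hG] at h3
    omega
  have hHi : H.index = 2 := by
    have h3 := Subgroup.card_mul_index H
    rw [hHc, hG, mul_comm] at h3
    exact Nat.eq_of_mul_eq_mul_right hm0 h3
  have hzH : z ∉ H := by
    intro h3
    have h4 : orderOf (⟨z, h3⟩ : H) ∣ Nat.card H := orderOf_dvd_natCard _
    rw [Subgroup.orderOf_mk, ho, hHc] at h4
    exact (Nat.not_even_iff_odd.2 hm) (even_iff_two_dvd.2 h4)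
  refine ⟨H, hHc, fun x => ?_⟩
  have h3 := Subgroup.mul_mem_iff_of_index_two hHi (a := z) (b := x)
  rw [h3]
  constructor
  · intro hx h4
    exact hzH (h4.2 hx)
  · intro h4
    by_contra hx
    exact h4 ⟨fun h => absurd h hzH, fun h => absurd h hx⟩

end Pool.Agent.H42.OD
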