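import Mathlib
import Pool.Agent.H52.AD.Dims
import Pool.Agent.H52.CS.Defs
import Pool.Agent.H52.CS.GalCard
import Pool.Agent.H42.OD.Half

/-!
# The odd part of the group and the section (module H42 OD SEC)

`W` simple of Galois type, the order of `Γ = Gr` not divisible by four.  `Γ` contains `-1`, so it has order `2 m`, `m` odd; `H ≤ Γ` is a subgroup of
index two with `Γ = H ∪ -H`.  `κ x` is the operator `f ↦ f ∘ π` for any `π ∈ 𝒢` with `π x₀ = x`.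

PROOF.  Let `ρ = rediso_op hst : 𝒢 →* (W ≃ₗ[ℚ] W)`, `(ρ π f) x = f (π⁻¹ x)`, `Gr hst` its range.
(1) `|Gr| = |Gm 𝒢 W|` (`card_Gr`); `Gr` is finite (range of a homomorphism from a finite group).  `ρ c = -1` (`hW.2.1`: `f (c⁻¹ x) = - f x`; `c⁻¹ = c`
by `hS.cc`): central, of order two (`W ≠ ⊥`).  So `2` divides `|Gr|`, `|Gr| = 2 m`, `m` odd since `4` does not divide `|Gr|`.  Take `H`
from `exists_half` in the group `Gr hst` with `z = ρ c` (map it to `W ≃ₗ[ℚ] W` by `Subgroup.map (Gr hst).subtype`; or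
`Subgroup.map`/`comap`).
(2) For `x ∈ X` choose `s x ∈ 𝒢` with `s x x₀ = x` (`hS.trans`) and put `κ x = (ρ (s x))⁻¹`.  If `π x₀ = π' x₀` then
`ρ π = ρ π'`: `π⁻¹ π'` fixes `x₀` and acts trivially (`Gal`).  So `κ (π x₀) = (ρ π)⁻¹`.  Every `γ ∈ Gr` is
`(ρ π)⁻¹ = κ (π x₀)` for some `π`.  `κ (c x) = (ρ (c s x))⁻¹ = z κ x` with `z = ρ c`, so `κ (c x) ∈ H ↔ κ x ∉ H`.
(3) The sum: let `P = ∑_{κ x ∈ H} κ x` (an endomorphism of `W`).  For `h ∈ H`, `h = (ρ π)⁻¹`: `κ (π x) =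
κ x * (ρ π)⁻¹ = κ x * h` (`π x = π s_x x₀`), and `κ (π x) ∈ H ↔ κ x ∈ H`, so `P ∘ h = P` (reindex by the bijection
`x ↦ π x`).  So `P` vanishes on `V = span {h w - w | h ∈ H, w ∈ W}`.  `V` is stable under `H` (`k (h w - w) =
(k h k⁻¹) (k w) - k w`) and under `-1`, so under `𝒢`; as `W` is simple, `V` (mapped to a space of functions) is `⊥` or
`W`.  If `V = W` then `P = 0`.  If `V = ⊥` then all `h ∈ H` act trivially, so all elements of `Gr` are `± 1`, every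
line in `W` is stable under `𝒢`, so `W` is a line: contradiction to `2 ≤ dim W`.
-/

namespace Pool.Agent.H42.OD

open Module Pool.Agent.H52.AD Pool.Agent.H52.CS

open Classical in
theorem od_section {X : Type} [Fintype X] {c : Equiv.Perm X} {𝒢 : Subgroup (Equiv.Perm X)} {g : ℕ}
    {W : Submodule ℚ (X → ℚ)} (hS : Sys c 𝒢 g) (hW : Smp c 𝒢 W) (hG : Gal 𝒢 W) (h4 : ¬ 4 ∣ Nat.card (Gm 𝒢 W))
    (hd : 2 ≤ finrank ℚ W) (x₀ : X) :
    ∃ (H : Subgroup (W ≃ₗ[ℚ] W)) (κ : X → (W ≃ₗ[ℚ] W)), H ≤ Gr hW.2.2.1 ∧ Finite H ∧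
      Odd (Nat.card H) ∧
      (∀ γ ∈ Gr hW.2.2.1, γ ∈ H ∨ ∃ δ ∈ H, ∀ w, γ w = - δ w) ∧
      (∀ π : 𝒢, κ ((π : Equiv.Perm X) x₀) = (rediso_op hW.2.2.1 π)⁻¹) ∧
      (∀ x, κ (c x) ∈ H ↔ κ x ∉ H) ∧ (∀ γ ∈ Gr hW.2.2.1, ∃ x, κ x = γ) ∧
      (∀ w : W, ∑ x, (if κ x ∈ H then κ x w else 0) = 0) := by
  have hst : Stb 𝒢 W := hW.2.2.1
  obtain ⟨ρ, hρ⟩ : ∃ ρ : 𝒢 →* (W ≃ₗ[ℚ] W), ρ = rediso_op hst := ⟨_, rfl⟩
  have hρa : ∀ (π : 𝒢) (f : W) (x : X),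
      (ρ π f : X → ℚ) x = (f : X → ℚ) ((π : Equiv.Perm X)⁻¹ x) := fun π f x => by
    rw [hρ]
    rfl
  have hGr : ∀ γ, γ ∈ Gr hst ↔ ∃ π : 𝒢, ρ π = γ := fun γ => by
    rw [hρ]
    exact Iff.rfl
  have hfinG : Finite (Gr hst) := by
    unfold Gr
    infer_instance
  -- the central element
  obtain ⟨z, hzρ⟩ : ∃ z : W ≃ₗ[ℚ] W, z = ρ ⟨c, hS.mem⟩ := ⟨_, rfl⟩
  have hz : ∀ w : W, z w = -w := by
    intro w
    apply Subtype.ext
    funext x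
    rw [hzρ, hρa]
    have hc : c⁻¹ x = c x := by
      rw [Equiv.Perm.inv_eq_iff_eq, hS.cc]
    show (w : X → ℚ) (c⁻¹ x) = -((w : X → ℚ) x)
    rw [hc, hW.2.1 w w.2 x]
  have hzm : z ∈ Gr hst := (hGr z).2 ⟨_, hzρ.symm⟩
  have hzc : ∀ γ : W ≃ₗ[ℚ] W, z * γ = γ * z := by
    intro γ
    apply LinearEquiv.ext
    intro w
    rw [LinearEquiv.mul_apply, LinearEquiv.mul_apply, hz, hz, map_neg]
  have hzz : z * z = 1 := by
    apply LinearEquiv.ext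
    intro w
    rw [LinearEquiv.mul_apply, hz, hz, neg_neg]
    rfl
  have hzi : z⁻¹ = z := inv_eq_of_mul_eq_one_left hzz
  obtain ⟨w₀, hw₀⟩ : ∃ w : W, w ≠ 0 := by
    obtain ⟨v, hv, hv0⟩ := Submodule.exists_mem_ne_zero_of_ne_bot hW.1
    exact ⟨⟨v, hv⟩, fun h => hv0 (congrArg Subtype.val h)⟩
  have hz1 : z ≠ 1 := by
    intro h
    have h1 := hz w₀
    rw [h] at h1
    have h2 : w₀ = -w₀ := h1
    have h3 : (2 : ℚ) • w₀ = 0 := by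
      rw [two_smul]
      nth_rewrite 1 [h2]
      rw [neg_add_cancel]
    rcases smul_eq_zero.1 h3 with h4 | h4
    · norm_num at h4
    · exact hw₀ h4
  obtain ⟨zG, hzG⟩ : ∃ zG : Gr hst, (zG : W ≃ₗ[ℚ] W) = z := ⟨⟨z, hzm⟩, rfl⟩
  have hzG1 : zG ≠ 1 := fun h => hz1 (by rw [← hzG, h]; rfl)
  have hzGz : zG * zG = 1 := by
    apply Subtype.ext
    rw [Subgroup.coe_mul, hzG, hzz]
    rfl
  have hord : orderOf zG = 2 := by
    refine orderOf_eq_prime ?_ hzG1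
    rw [pow_two, hzGz]
  obtain ⟨m, hm⟩ : 2 ∣ Nat.card (Gr hst) := by
    rw [← hord]
    exact orderOf_dvd_natCard zG
  have hmodd : Odd m := by
    rw [← Nat.not_even_iff_odd]
    rintro ⟨k, hk⟩
    apply h4
    rw [← card_Gr hst, hm, hk]
    exact ⟨k, by ring⟩
  obtain ⟨HG, hHc, hHz⟩ := exists_half zG (fun x => by
    apply Subtype.ext
    rw [Subgroup.coe_mul, Subgroup.coe_mul, hzG, hzc]) hzG1 hzGz m hmodd hm
  obtain ⟨H, hH⟩ : ∃ H : Subgroup (W ≃ₗ[ℚ] W), H = HG.map (Gr hst).subtype := ⟨_, rfl⟩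
  have hHG : ∀ γ : Gr hst, (γ : W ≃ₗ[ℚ] W) ∈ H ↔ γ ∈ HG := by
    intro γ
    rw [hH, Subgroup.mem_map]
    constructor
    · rintro ⟨δ, hδ, h1⟩
      have h2 : δ = γ := Subtype.ext h1
      rwa [← h2]
    · intro h
      exact ⟨γ, h, rfl⟩
  have hHle : H ≤ Gr hst := by
    rw [hH]
    rintro _ ⟨δ, _, rfl⟩
    exact δ.2
  have hzH : ∀ γ ∈ Gr hst, (z * γ ∈ H ↔ γ ∉ H) := by
    intro γ hγ
    have h1 := hHG ⟨γ, hγ⟩
    have h2 := hHG (zG * ⟨γ, hγ⟩)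
    rw [Subgroup.coe_mul, hzG] at h2
    have h3 := hHz ⟨γ, hγ⟩
    rw [h2, h1, h3, not_not]
  have hHfin : Finite H :=
    Finite.of_injective (Subgroup.inclusion hHle) (Subgroup.inclusion_injective hHle)
  have hHcard : Nat.card H = m := by
    rw [← hHc, hH]
    exact (Nat.card_congr (HG.equivMapOfInjective _ (Gr hst).subtype_injective).toEquiv).symm
  have hcov : ∀ γ ∈ Gr hst, γ ∈ H ∨ ∃ δ ∈ H, ∀ w, γ w = -δ w := by
    intro γ hγ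
    by_cases h : γ ∈ H
    · exact Or.inl h
    · right
      refine ⟨z * γ, (hzH γ hγ).2 h, fun w => ?_⟩
      rw [LinearEquiv.mul_apply, hz, neg_neg]
  -- the section
  have hs : ∀ x, ∃ π : 𝒢, (π : Equiv.Perm X) x₀ = x := by
    intro x
    obtain ⟨π, hπ, h⟩ := hS.trans x₀ x
    exact ⟨⟨π, hπ⟩, h⟩
  choose s hs using hs
  obtain ⟨κ, hκ⟩ : ∃ κ : X → (W ≃ₗ[ℚ] W), ∀ x, κ x = (ρ (s x))⁻¹ := ⟨_, fun _ => rfl⟩
  have hkey : ∀ π π' : 𝒢, (π : Equiv.Perm X) x₀ = (π' : Equiv.Perm X) x₀ → ρ π = ρ π' := by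
    intro π π' h
    apply LinearEquiv.ext
    intro w
    apply Subtype.ext
    funext x
    rw [hρa, hρa]
    have h1 := hG w w.2 ((π'⁻¹ * π : 𝒢) : Equiv.Perm X) (π'⁻¹ * π : 𝒢).2
      ⟨x₀, by
        rw [Subgroup.coe_mul, Subgroup.coe_inv, Equiv.Perm.mul_apply, h]
        exact Equiv.symm_apply_apply _ _⟩ ((π : Equiv.Perm X)⁻¹ x)
    have h2 : ((π'⁻¹ * π : 𝒢) : Equiv.Perm X) ((π : Equiv.Perm X)⁻¹ x) =
        (π' : Equiv.Perm X)⁻¹ x := by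
      rw [Subgroup.coe_mul, Subgroup.coe_inv, Equiv.Perm.mul_apply]
      congr 1
      exact Equiv.apply_symm_apply _ _
    rw [h2] at h1
    exact h1.symm
  have hκπ : ∀ π : 𝒢, κ ((π : Equiv.Perm X) x₀) = (ρ π)⁻¹ := by
    intro π
    rw [hκ]
    congr 1
    exact hkey _ _ (hs _)
  have hκG : ∀ x, κ x ∈ Gr hst := by
    intro x
    rw [hκ]
    exact (Gr hst).inv_mem ((hGr _).2 ⟨_, rfl⟩)
  have hκc : ∀ x, κ (c x) = z * κ x := by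
    intro x
    have h1 : c x = ((⟨c, hS.mem⟩ * s x : 𝒢) : Equiv.Perm X) x₀ := by
      rw [Subgroup.coe_mul, Equiv.Perm.mul_apply, hs]
    rw [h1, hκπ, map_mul, ← hzρ, mul_inv_rev, hzi, ← hκ, hzc]
  have hκg : ∀ (π : 𝒢) (x : X), κ ((π : Equiv.Perm X) x) = κ x * (ρ π)⁻¹ := by
    intro π x
    have h1 : (π : Equiv.Perm X) x = ((π * s x : 𝒢) : Equiv.Perm X) x₀ := by
      rw [Subgroup.coe_mul, Equiv.Perm.mul_apply, hs]
    rw [h1, hκπ, map_mul, mul_inv_rev, ← hκ]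
  refine ⟨H, κ, hHle, hHfin, by rw [hHcard]; exact hmodd, hcov, fun π => by rw [hκπ, hρ],
    fun x => by rw [hκc]; exact hzH _ (hκG x), ?_, ?_⟩
  · intro γ hγ
    obtain ⟨π, hπ⟩ := (hGr γ).1 hγ
    refine ⟨((π⁻¹ : 𝒢) : Equiv.Perm X) x₀, ?_⟩
    rw [hκπ, map_inv, inv_inv, hπ]
  -- the sum
  obtain ⟨P, hP⟩ : ∃ P : W →ₗ[ℚ] W, ∀ w, P w = ∑ x, (if κ x ∈ H then κ x w else 0) := by
    refine ⟨∑ x, (if κ x ∈ H then ((κ x : W ≃ₗ[ℚ] W) : W →ₗ[ℚ] W) else 0), fun w => ?_⟩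
    rw [LinearMap.sum_apply]
    refine Finset.sum_congr rfl fun x _ => ?_
    split_ifs
    · rfl
    · rfl
  have hPh : ∀ h ∈ H, ∀ w, P (h w) = P w := by
    intro h hh w
    obtain ⟨σ, hσ⟩ := (hGr h).1 (hHle hh)
    obtain ⟨π, hπ⟩ : ∃ π : 𝒢, π = σ⁻¹ := ⟨_, rfl⟩
    have h1 : (ρ π)⁻¹ = h := by rw [hπ, map_inv, inv_inv, hσ]
    rw [hP, hP, ← Equiv.sum_comp (π : Equiv.Perm X) (fun x => if κ x ∈ H then κ x w else 0)]
    refine Finset.sum_congr rfl fun x _ => ?_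
    rw [hκg, h1, LinearEquiv.mul_apply]
    have h2 : κ x * h ∈ H ↔ κ x ∈ H := H.mul_mem_cancel_right hh
    simp only [h2]
  have hPγ : ∀ γ ∈ Gr hst, ∀ w, P w = 0 → P (γ w) = 0 := by
    intro γ hγ w hw
    rcases hcov γ hγ with h | ⟨δ, hδ, h⟩
    · rw [hPh γ h, hw]
    · rw [h, map_neg, hPh δ hδ, hw, neg_zero]
  have hKst : Stb 𝒢 ((LinearMap.ker P).map W.subtype) := by
    rintro π hπ f hf
    obtain ⟨w, hw, rfl⟩ := Submodule.mem_map.1 hf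
    refine Submodule.mem_map.2 ⟨ρ (⟨π, hπ⟩⁻¹ : 𝒢) w, ?_, ?_⟩
    · rw [LinearMap.mem_ker] at hw ⊢
      exact hPγ _ ((hGr _).2 ⟨_, rfl⟩) w hw
    · funext x
      show (ρ (⟨π, hπ⟩⁻¹ : 𝒢) w : X → ℚ) x = (w : X → ℚ) (π x)
      rw [hρa, Subgroup.coe_inv, inv_inv]
  rcases hW.2.2.2 _ (Submodule.map_subtype_le W _) hKst with h | h
  · exfalso
    have hker : ∀ w, P w = 0 → w = 0 := by
      intro w hw
      have h1 : (w : X → ℚ) ∈ (LinearMap.ker P).map W.subtype :=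
        Submodule.mem_map.2 ⟨w, LinearMap.mem_ker.2 hw, rfl⟩
      rw [h, Submodule.mem_bot] at h1
      exact Subtype.ext h1
    have htriv : ∀ h ∈ H, ∀ w, h w = w := by
      intro h hh w
      have h1 := hker (h w - w) (by rw [map_sub, hPh h hh, sub_self])
      exact sub_eq_zero.1 h1
    have hline : Stb 𝒢 (Submodule.span ℚ {(w₀ : X → ℚ)}) := by
      rintro π hπ f hf
      obtain ⟨a, rfl⟩ := Submodule.mem_span_singleton.1 hf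
      have h1 : (fun x => (a • (w₀ : X → ℚ)) (π x)) =
          a • (ρ (⟨π, hπ⟩⁻¹ : 𝒢) w₀ : X → ℚ) := by
        funext x
        show a * (w₀ : X → ℚ) (π x) = a * (ρ (⟨π, hπ⟩⁻¹ : 𝒢) w₀ : X → ℚ) x
        rw [hρa, Subgroup.coe_inv, inv_inv]
      rw [h1]
      rcases hcov (ρ (⟨π, hπ⟩⁻¹ : 𝒢)) ((hGr _).2 ⟨_, rfl⟩) with h2 | ⟨δ, hδ, h2⟩
      · rw [htriv _ h2]
        exact hf
      · rw [h2, htriv δ hδ]
        refine Submodule.mem_span_singleton.2 ⟨-a, ?_⟩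
        rw [Submodule.coe_neg, smul_neg, neg_smul]
    have hle : Submodule.span ℚ {(w₀ : X → ℚ)} ≤ W := by
      rw [Submodule.span_singleton_le_iff_mem]
      exact w₀.2
    rcases hW.2.2.2 _ hle hline with h1 | h1
    · rw [Submodule.span_singleton_eq_bot] at h1
      exact hw₀ (Subtype.ext h1)
    · have h2 : finrank ℚ (Submodule.span ℚ {(w₀ : X → ℚ)}) = 1 :=
        finrank_span_singleton fun h3 => hw₀ (Subtype.ext h3)
      rw [h1] at h2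
      omega
  · intro w
    have h1 : (w : X → ℚ) ∈ (LinearMap.ker P).map W.subtype := by
      rw [h]
      exact w.2
    obtain ⟨w', hw', hw''⟩ := Submodule.mem_map.1 h1
    have h2 : w' = w := Subtype.ext hw''
    rw [h2, LinearMap.mem_ker, hP] at hw'
    exact hw'

end Pool.Agent.H42.OD
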