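import Mathlib

/-!
# Odd dimensions: definitions (H42 OD)

`R` a ring, `M` an `R`-module that is a vector space over `𝔽₂`.  `Bad R M` is the set of the `r ∈ R` such that there
is a linear functional `l : M → 𝔽₂` with `l ∘ r = 0` such that `φ = 0` is the only `R`-linear endomorphism `φ` of `M`
with `l ∘ φ = 0`.
-/

namespace Pool.Agent.H42.OD

/-- See above. -/
def Bad (R M : Type*) [Ring R] [AddCommGroup M] [Module R M] [Module (ZMod 2) M] : Set R :=
  {r | ∃ l : Module.Dual (ZMod 2) M, (∀ m, l (r • m) = 0) ∧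
    ∀ φ : Module.End R M, (∀ m, l (φ m) = 0) → φ = 0}

end Pool.Agent.H42.OD
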