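import Mathlib
import Pool.Agent.H42.OD.ODDefs

/-!
# Counting bad elements (module H42 OD PRS)

`R` a finite semisimple ring, `M` a finite `R`-module of exponent two, `E = Module.End R M`: `|Bad| |Eˣ| ≤ |R|`.

PROOF.  Call `l : M → 𝔽₂` good if `φ = 0` is the only `φ ∈ E` with `l ∘ φ = 0`.  Let `P` be the set of the pairs
`(r, l)` with `l` good and `l ∘ r = 0` (i.e. `l (r • m) = 0` for all `m`).
(1) For good `l` the additive map `Λ_l : R → Module.Dual (ZMod 2) M`, `r ↦ (m ↦ l (r • m))` is surjective: its range
is a subspace (`AddSubgroup` of a `ZMod 2`-space; `AddSubgroup.toZModSubmodule`); if it is not everything then there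
is `v ≠ 0` in `M` killed by all functionals in the range (`Submodule.dualCoannihilator`, finite dimension), so
`l (r • v) = 0` for all `r`; let `N = R ∙ v ≤ M`; `M` is semisimple (`R` is), so `N` has a complement and there is a
projection `φ ∈ E` with range `N` (`Submodule.exists_isCompl`, `Submodule.linearProjOfIsCompl` or
`Submodule.IsCompl.projection`), `l ∘ φ = 0` but `φ v = v ≠ 0`: contradiction.
(2) So the kernel of `Λ_l` has `|R| / |Dual M| = |R| / |M|` elements, and `|P| ≤ |Dual M| (|R| / |Dual M|) = |R|`.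
(3) For `r ∈ Bad` choose a good `l_r` with `l_r ∘ r = 0`.  The map `Bad × Eˣ → P`, `(r, u) ↦ (r, l_r ∘ u)`, is
injective: `l_r ∘ u = l_r ∘ u'` gives `l_r ∘ (u - u') = 0`, so `u = u'`; `l_r ∘ u` is good (`l_r ∘ u ∘ φ = 0` implies
`u φ = 0`, `φ = 0`) and `l_r (u (r • m)) = l_r (r • u m) = 0`.
Additive maps between `𝔽₂`-spaces are linear: `AddMonoidHom.toZModLinearMap`, `ZMod.map_smul`.
-/

namespace Pool.Agent.H42.OD

section

variable {R M : Type*} [Ring R] [AddCommGroup M] [Module R M] [Module (ZMod 2) M]

/-- `φ = 0` is the only endomorphism with `l ∘ φ = 0`. -/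
def Good (R : Type*) {M : Type*} [Ring R] [AddCommGroup M] [Module R M] [Module (ZMod 2) M]
    (l : Module.Dual (ZMod 2) M) : Prop :=
  ∀ φ : Module.End R M, (∀ m, l (φ m) = 0) → φ = 0

/-- an additive endomorphism of `M` given by `r`, as a `ZMod 2`-linear map -/
noncomputable def act (r : R) : M →ₗ[ZMod 2] M :=
  AddMonoidHom.toZModLinearMap 2 (DistribSMul.toAddMonoidHom M r)

omit [Module (ZMod 2) M] in
theorem act_def [Module (ZMod 2) M] (r : R) (m : M) : act r m = r • m := rfl

/-- an endomorphism of the `R`-module `M`, as a `ZMod 2`-linear map -/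
noncomputable def endo (φ : Module.End R M) : M →ₗ[ZMod 2] M :=
  AddMonoidHom.toZModLinearMap 2 (φ : M →+ M)

theorem endo_def (φ : Module.End R M) (m : M) : endo φ m = φ m := rfl

/-- the map `r ↦ (m ↦ l (r • m))` -/
noncomputable def Lam (l : Module.Dual (ZMod 2) M) : R →+ Module.Dual (ZMod 2) M where
  toFun r := l ∘ₗ act r
  map_zero' := by ext m; simp [act_def]
  map_add' r s := by ext m; simp [act_def, add_smul]

theorem Lam_apply (l : Module.Dual (ZMod 2) M) (r : R) (m : M) : Lam l r m = l (r • m) := rfl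

theorem lam_surj [Finite M] [IsSemisimpleRing R] (l : Module.Dual (ZMod 2) M) (hl : Good R l) :
    Function.Surjective (Lam (R := R) l) := by
  classical
  have : Module.Finite (ZMod 2) M := Module.Finite.of_finite
  by_contra hns
  set W : Submodule (ZMod 2) (Module.Dual (ZMod 2) M) :=
    AddSubgroup.toZModSubmodule 2 (Lam (R := R) l).range with hW
  have hWtop : W ≠ ⊤ := by
    intro h
    apply hns
    intro f
    have : f ∈ W := by rw [h]; trivial
    exact this
  have hco : W.dualCoannihilator ≠ ⊥ := by
    intro h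
    apply hWtop
    have h2 := Subspace.dualCoannihilator_dualAnnihilator_eq (W := W)
    rw [h, Submodule.dualAnnihilator_bot] at h2
    exact h2.symm
  obtain ⟨v, hv, hv0⟩ := Submodule.exists_mem_ne_zero_of_ne_bot hco
  have hlv : ∀ r : R, l (r • v) = 0 := by
    intro r
    rw [Submodule.mem_dualCoannihilator] at hv
    exact hv (Lam l r) ⟨r, rfl⟩
  obtain ⟨N', hN'⟩ := exists_isCompl (R ∙ v)
  let φ : Module.End R M := (R ∙ v).subtype ∘ₗ Submodule.projectionOnto (R ∙ v) N' hN'
  have hφ : ∀ m, l (φ m) = 0 := by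
    intro m
    have hm : φ m ∈ R ∙ v := (Submodule.projectionOnto (R ∙ v) N' hN' m).2
    obtain ⟨r, hr⟩ := Submodule.mem_span_singleton.1 hm
    rw [← hr]; exact hlv r
  have h0 := hl φ hφ
  have hvv : φ v = v := by
    have := Submodule.projectionOnto_apply_left hN' ⟨v, Submodule.mem_span_singleton_self v⟩
    change ((Submodule.projectionOnto (R ∙ v) N' hN' v : R ∙ v) : M) = v
    rw [this]
  rw [h0] at hvv
  exact hv0 hvv.symm

end

theorem bad_mul_units (R M : Type*) [Ring R] [Finite R] [IsSemisimpleRing R] [AddCommGroup M]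
    [Module R M] [Module (ZMod 2) M] [Finite M] :
    Nat.card (Bad R M) * Nat.card (Module.End R M)ˣ ≤ Nat.card R := by
  classical
  have hfE : Finite (Module.End R M) :=
    Finite.of_injective (fun f : Module.End R M => (f : M → M)) DFunLike.coe_injective
  have hfD : Finite (Module.Dual (ZMod 2) M) :=
    Finite.of_injective (fun f : Module.Dual (ZMod 2) M => (f : M → ZMod 2)) DFunLike.coe_injective
  have : Fintype (Module.Dual (ZMod 2) M) := Fintype.ofFinite _
  -- the set of pairs
  let P := Σ l : {l : Module.Dual (ZMod 2) M // Good R l}, (Lam (R := R) l.1).ker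
  have hker : ∀ l : {l : Module.Dual (ZMod 2) M // Good R l},
      Nat.card (Lam (R := R) l.1).ker * Nat.card (Module.Dual (ZMod 2) M) = Nat.card R := by
    intro l
    have h1 := AddSubgroup.card_mul_index (Lam (R := R) l.1).ker
    rw [AddSubgroup.index_ker, AddMonoidHom.range_eq_top.2 (lam_surj l.1 l.2)] at h1
    rw [← h1]
    congr 1
    exact (Nat.card_congr (AddSubgroup.topEquiv (G := Module.Dual (ZMod 2) M)).toEquiv).symm
  have hD0 : 0 < Nat.card (Module.Dual (ZMod 2) M) := Nat.card_pos
  have hP : Nat.card P ≤ Nat.card R := by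
    have : Fintype {l : Module.Dual (ZMod 2) M // Good R l} := Fintype.ofFinite _
    have h1 : Nat.card P = ∑ l : {l : Module.Dual (ZMod 2) M // Good R l},
        Nat.card (Lam (R := R) l.1).ker := Nat.card_sigma
    have h2 : Nat.card P * Nat.card (Module.Dual (ZMod 2) M) ≤
        Nat.card R * Nat.card (Module.Dual (ZMod 2) M) := by
      rw [h1, Finset.sum_mul, Finset.sum_congr rfl (fun l _ => hker l), Finset.sum_const,
        Finset.card_univ, smul_eq_mul, mul_comm]
      refine Nat.mul_le_mul_left _ ?_
      rw [← Nat.card_eq_fintype_card]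
      exact Nat.card_le_card_of_injective Subtype.val Subtype.val_injective
    exact Nat.le_of_mul_le_mul_right h2 hD0
  -- the injection
  choose L hL using fun r : Bad R M => r.2
  let F : Bad R M × (Module.End R M)ˣ → P := fun x =>
    ⟨⟨(L x.1) ∘ₗ endo (x.2 : Module.End R M), by
      intro φ hφ
      have h1 : (x.2 : Module.End R M) * φ = 0 := (hL x.1).2 _ (fun m => hφ m)
      have h2 : ((x.2⁻¹ : (Module.End R M)ˣ) : Module.End R M) * ((x.2 : Module.End R M) * φ) = 0 := by
        rw [h1, mul_zero]
      rwa [← mul_assoc, Units.inv_mul, one_mul] at h2⟩,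
     ⟨x.1.1, by
      rw [AddMonoidHom.mem_ker]
      ext m
      change L x.1 ((x.2 : Module.End R M) (x.1.1 • m)) = 0
      rw [map_smul]
      exact (hL x.1).1 _⟩⟩
  have hF : Function.Injective F := by
    rintro ⟨r, u⟩ ⟨s, w⟩ h
    have h1 : L r ∘ₗ endo (u : Module.End R M) = L s ∘ₗ endo (w : Module.End R M) :=
      congrArg (fun p : P => p.1.1) h
    have h2 : r.1 = s.1 := by
      have : ∀ p q : P, p = q → (p.2 : R) = (q.2 : R) := by rintro p _ rfl; rfl
      exact this _ _ h
    have h3 : r = s := Subtype.ext h2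
    subst h3
    have h4 : (u : Module.End R M) - w = 0 := by
      refine (hL r).2 _ fun m => ?_
      have := LinearMap.congr_fun h1 m
      change L r ((u : Module.End R M) m) = L r ((w : Module.End R M) m) at this
      rw [LinearMap.sub_apply, map_sub, this, sub_self]
    have h5 : u = w := Units.ext (sub_eq_zero.1 h4)
    rw [h5]
  calc Nat.card (Bad R M) * Nat.card (Module.End R M)ˣ
      = Nat.card (Bad R M × (Module.End R M)ˣ) := (Nat.card_prod _ _).symm
    _ ≤ Nat.card P := Nat.card_le_card_of_injective F hF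
    _ ≤ Nat.card R := hP

end Pool.Agent.H42.OD
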