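import Mathlib

/-!
# At least a quarter of the square matrices over a finite field is invertible (module H42 OD UNI; Mathlib only)

PROOF.  Let `q = |K| ≥ 2`.  The number of invertible matrices is `∏_{i < n} (q^n - q^i)` (`Matrix.card_GL_field`,
`GL (Fin n) K = (Matrix (Fin n) (Fin n) K)ˣ`), the number of all matrices is `q^(n²)`.
By induction on `n`: `q^(n²) * (q^n + 2) ≤ 4 * q^n * ∏_{i < n} (q^n - q^i)`, i.e. with real numbers
`∏_{j = 1}^n (1 - q^(-j)) ≥ 1/4 + 1/(2 q^n)`: for `n = 0` the product is `1` (treat `n = 0` and `n = 1` separately: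
`1 - 1/q ≥ 1/4 + 1/(2q)` as `q ≥ 2`), and
`(1/4 + 1/(2 q^n)) (1 - q^(-n-1)) = 1/4 + 1/(2 q^n) - 1/(4 q^(n+1)) - 1/(2 q^(2n+1)) ≥ 1/4 + 1/(2 q^(n+1))` for
`n ≥ 1`, since `q ≥ 2`: `2 q ≥ 1 + 2 q^(-n) + 2`, i.e. multiply by `4 q^(n+1)`: `2 q - 1 - 2 q^(-n) ≥ 2`, true for
`q ≥ 2`, `n ≥ 1`.
-/

namespace Pool.Agent.H42.OD

theorem prod_rec (q n : ℕ) :
    (∏ i ∈ Finset.range (n + 1), ((q : ℝ) ^ (n + 1) - (q : ℝ) ^ i)) =
      ((q : ℝ) ^ (n + 1) - 1) * (q : ℝ) ^ n * ∏ i ∈ Finset.range n, ((q : ℝ) ^ n - (q : ℝ) ^ i) := by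
  rw [Finset.prod_range_succ']
  have h : ∀ i ∈ Finset.range n, ((q : ℝ) ^ (n + 1) - (q : ℝ) ^ (i + 1)) =
      (q : ℝ) * ((q : ℝ) ^ n - (q : ℝ) ^ i) := by
    intro i _; ring
  rw [Finset.prod_congr rfl h, Finset.prod_mul_distrib, Finset.prod_const, Finset.card_range]
  ring

theorem prod_bound (q : ℕ) (hq : 2 ≤ q) (n : ℕ) (hn : 1 ≤ n) :
    (q : ℝ) ^ (n ^ 2) * ((q : ℝ) ^ n + 2) ≤
      4 * (q : ℝ) ^ n * ∏ i ∈ Finset.range n, ((q : ℝ) ^ n - (q : ℝ) ^ i) := by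
  have hq' : (2 : ℝ) ≤ q := by exact_mod_cast hq
  induction n, hn using Nat.le_induction with
  | base =>
    simp
    nlinarith
  | succ n hn ih =>
    rw [prod_rec q n]
    have ha : (2 : ℝ) ≤ (q : ℝ) ^ n := by
      calc (2 : ℝ) ≤ q := hq'
        _ = (q : ℝ) ^ 1 := (pow_one _).symm
        _ ≤ (q : ℝ) ^ n := pow_le_pow_right₀ (by linarith) hn
    have hb : (q : ℝ) ^ (n + 1) = q * (q : ℝ) ^ n := by ring
    have hc : (q : ℝ) ^ ((n + 1) ^ 2) = (q : ℝ) ^ (n ^ 2) * ((q : ℝ) ^ n * (q : ℝ) ^ n * q) := by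
      rw [← pow_add, ← pow_succ, ← pow_add]; congr 1; ring
    rw [hc]
    have h1 : 4 * (q : ℝ) ^ (n + 1) * (((q : ℝ) ^ (n + 1) - 1) * (q : ℝ) ^ n *
        ∏ i ∈ Finset.range n, ((q : ℝ) ^ n - (q : ℝ) ^ i)) =
        ((q : ℝ) ^ (n + 1) * ((q : ℝ) ^ (n + 1) - 1)) * (4 * (q : ℝ) ^ n *
          ∏ i ∈ Finset.range n, ((q : ℝ) ^ n - (q : ℝ) ^ i)) := by ring
    rw [h1]
    have h2 : 0 ≤ (q : ℝ) ^ (n + 1) * ((q : ℝ) ^ (n + 1) - 1) := by
      have : (1 : ℝ) ≤ (q : ℝ) ^ (n + 1) := one_le_pow₀ (by linarith)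
      exact mul_nonneg (by positivity) (by linarith)
    refine le_trans ?_ (mul_le_mul_of_nonneg_left ih h2)
    rw [hb]
    set a := (q : ℝ) ^ n with hadef
    have hP : 0 ≤ (q : ℝ) ^ (n ^ 2) := by positivity
    have h3 : a * (q * a + 2) ≤ (q * a - 1) * (a + 2) := by nlinarith
    have h4 : (q : ℝ) ^ (n ^ 2) * (a * a * q) * (q * a + 2) =
        ((q : ℝ) ^ (n ^ 2) * (a * q)) * (a * (q * a + 2)) := by ring
    have h5 : (q * a) * (q * a - 1) * ((q : ℝ) ^ (n ^ 2) * (a + 2)) =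
        ((q : ℝ) ^ (n ^ 2) * (a * q)) * ((q * a - 1) * (a + 2)) := by ring
    rw [h4, h5]
    exact mul_le_mul_of_nonneg_left h3 (by positivity)

theorem prod_bound' (q : ℕ) (hq : 2 ≤ q) (n : ℕ) :
    (q : ℝ) ^ (n ^ 2) ≤ 4 * ∏ i ∈ Finset.range n, ((q : ℝ) ^ n - (q : ℝ) ^ i) := by
  rcases Nat.eq_zero_or_pos n with rfl | hn
  · norm_num
  · have h := prod_bound q hq n hn
    have hq' : (2 : ℝ) ≤ q := by exact_mod_cast hq
    have ha : 0 < (q : ℝ) ^ n := by positivity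
    have h1 : (q : ℝ) ^ n * (q : ℝ) ^ (n ^ 2) ≤
        (q : ℝ) ^ n * (4 * ∏ i ∈ Finset.range n, ((q : ℝ) ^ n - (q : ℝ) ^ i)) := by
      have : 0 ≤ (q : ℝ) ^ (n ^ 2) := by positivity
      nlinarith
    exact le_of_mul_le_mul_left h1 ha

theorem card_matrix_le (K : Type*) [Field K] [Finite K] (n : ℕ) :
    Nat.card (Matrix (Fin n) (Fin n) K) ≤ 4 * Nat.card (Matrix (Fin n) (Fin n) K)ˣ := by
  classical
  have : Fintype K := Fintype.ofFinite K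
  have h1 : Nat.card (Matrix (Fin n) (Fin n) K)ˣ =
      ∏ i : (Fin n), (Fintype.card K ^ n - Fintype.card K ^ (i : ℕ)) :=
    Matrix.card_GL_field (𝔽 := K) n
  have h2 : Nat.card (Matrix (Fin n) (Fin n) K) = Fintype.card K ^ (n ^ 2) := by
    rw [show Nat.card (Matrix (Fin n) (Fin n) K) = Nat.card (Fin n → Fin n → K) from rfl,
      Nat.card_eq_fintype_card]
    simp [sq, pow_mul]
  have hq : 2 ≤ Fintype.card K := Fintype.one_lt_card
  have h3 := prod_bound' (Fintype.card K) hq n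
  rw [h1, h2]
  have h4 : ((∏ i : (Fin n), (Fintype.card K ^ n - Fintype.card K ^ (i : ℕ)) : ℕ) : ℝ) =
      ∏ i ∈ Finset.range n, ((Fintype.card K : ℝ) ^ n - (Fintype.card K : ℝ) ^ i) := by
    rw [← Fin.prod_univ_eq_prod_range (fun i => ((Fintype.card K : ℝ) ^ n - (Fintype.card K : ℝ) ^ i)) n]
    push_cast
    refine Finset.prod_congr rfl fun i _ => ?_
    rw [Nat.cast_sub (Nat.pow_le_pow_right (by omega) i.2.le)]
    push_cast
    rfl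
  have h5 : ((Fintype.card K ^ (n ^ 2) : ℕ) : ℝ) ≤
      ((4 * ∏ i : (Fin n), (Fintype.card K ^ n - Fintype.card K ^ (i : ℕ)) : ℕ) : ℝ) := by
    rw [Nat.cast_mul, h4]
    push_cast
    exact h3
  exact_mod_cast h5

end Pool.Agent.H42.OD
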