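import Mathlib
import Pool.Agent.H42.OD.Uni

/-!
# Units of finite simple rings and of endomorphism rings of their modules (module H42 OD RNG)

PROOF.  (a) `R` simple and finite, so Artinian; `IsSimpleRing.exists_ringEquiv_matrix_divisionRing`:
`R ≃+* Matrix (Fin n) (Fin n) D`, `D` a division ring, finite since it embeds in the finite matrix ring (`n ≠ 0`),
so a field (`littleWedderburn`).  Use `card_matrix_le`.
(b) `M` trivial: one endomorphism.  Otherwise `IsSimpleRing.isIsotypic R M` and `IsIsotypic.linearEquiv_fun` (see the
proof of `IsSimpleRing.exists_ringEquiv_matrix_end_mulOpposite` in Mathlib) give `M ≃ₗ[R] (Fin n → S)`, `S` simple, so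
`Module.End R M ≃+* Matrix (Fin n) (Fin n) (Module.End R S)` (`LinearEquiv.conjRingEquiv`,
`endVecRingEquivMatrixEnd`), `Module.End R S` is a division ring (Schur: `Module.End.instDivisionRing`), finite, so a
field.  Use `card_matrix_le`.
-/

namespace Pool.Agent.H42.OD

theorem card_matrix_le' (D : Type*) [DivisionRing D] [Finite D] (n : ℕ) :
    Nat.card (Matrix (Fin n) (Fin n) D) ≤ 4 * Nat.card (Matrix (Fin n) (Fin n) D)ˣ :=
  @card_matrix_le D (littleWedderburn D) _ n

theorem card_le_units (R : Type*) [Ring R] [Finite R] [IsSimpleRing R] :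
    Nat.card R ≤ 4 * Nat.card Rˣ := by
  obtain ⟨n, hn, D, hD, ⟨e⟩⟩ := IsSimpleRing.exists_ringEquiv_matrix_divisionRing R
  have hf : Finite (Matrix (Fin n) (Fin n) D) := Finite.of_equiv R e.toEquiv
  have hfD : Finite D := by
    have h0 : 0 < n := Nat.pos_of_ne_zero hn.out
    have hinj : Function.Injective (fun d : D => Matrix.of (fun _ _ : Fin n => d)) := by
      intro a b hab
      exact congrFun (congrFun hab ⟨0, h0⟩) ⟨0, h0⟩
    exact Finite.of_injective _ hinj
  rw [Nat.card_congr e.toEquiv, Nat.card_congr (Units.mapEquiv e.toMulEquiv).toEquiv]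
  exact card_matrix_le' D n

theorem card_end_le_units (R : Type*) [Ring R] [Finite R] [IsSimpleRing R]
    (M : Type*) [AddCommGroup M] [Module R M] [Finite M] :
    Nat.card (Module.End R M) ≤ 4 * Nat.card (Module.End R M)ˣ := by
  classical
  have hfE : Finite (Module.End R M) :=
    Finite.of_injective (fun f : Module.End R M => (f : M → M)) DFunLike.coe_injective
  rcases subsingleton_or_nontrivial M with hM | hM
  · have h1 : Nat.card (Module.End R M) ≤ 1 := by
      rw [Finite.card_le_one_iff_subsingleton]
      infer_instance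
    have h2 : 0 < Nat.card (Module.End R M)ˣ := Nat.card_pos
    omega
  · have : Module.Finite R M := by
      exact Module.Finite.of_finite
    obtain ⟨n, hn, S, hS, ⟨e⟩⟩ := (IsSimpleRing.isIsotypic R M).linearEquiv_fun
    let e' : Module.End R M ≃+* Matrix (Fin n) (Fin n) (Module.End R S) :=
      e.conjRingEquiv.trans (endVecRingEquivMatrixEnd _ _ _)
    have hfS : Finite (Module.End R S) :=
      Finite.of_injective (fun f : Module.End R S => (f : S → S)) DFunLike.coe_injective
    rw [Nat.card_congr e'.toEquiv, Nat.card_congr (Units.mapEquiv e'.toMulEquiv).toEquiv]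
    exact card_matrix_le' (Module.End R S) n

end Pool.Agent.H42.OD
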