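import Mathlib
import Pool.Agent.H42.OD.ODDefs
import Pool.Agent.H42.OD.Ring
import Pool.Agent.H42.OD.Pairs

/-!
# The bound for a simple ring (module H42 OD BLK)

`R` a finite simple ring, `M` a finite `R`-module of exponent two: `|Bad|^6 |End M| ≤ |R|^6`.

PROOF.  If `M` is trivial then `End M` has one element.  Let `M` be nontrivial, `b = |Bad|`, `x = |End M|`, `n = |R|`.
A bad element `r` is not a unit: otherwise `l (r • m) = 0` for all `m` gives `l = 0`, and then all `φ` satisfy
`l ∘ φ = 0`, in particular `φ = 1 ≠ 0`.  So `b + |Rˣ| ≤ n` and `4 b ≤ 3 n` (`card_le_units`).  By `bad_mul_units` and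
`card_end_le_units`, `b x ≤ 4 n`.  If `x ≤ 5` then `b^6 x ≤ 5 (3/4)^6 n^6 ≤ n^6`.  If `x ≥ 6` then
`b^6 x^6 ≤ 4^6 n^6` and `b^6 x ≤ 4^6 n^6 / 6^5 ≤ n^6`.
(`R` is semisimple: finite, so Artinian; instance in Mathlib.)
-/

namespace Pool.Agent.H42.OD

theorem bad_simple (R M : Type*) [Ring R] [Finite R] [IsSimpleRing R] [AddCommGroup M]
    [Module R M] [Module (ZMod 2) M] [Finite M] :
    Nat.card (Bad R M) ^ 6 * Nat.card (Module.End R M) ≤ Nat.card R ^ 6 := by
  classical
  have hfE : Finite (Module.End R M) :=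
    Finite.of_injective (fun f : Module.End R M => (f : M → M)) DFunLike.coe_injective
  rcases subsingleton_or_nontrivial M with hM | hM
  · have h1 : Nat.card (Module.End R M) ≤ 1 := by
      rw [Finite.card_le_one_iff_subsingleton]
      infer_instance
    have h2 : Nat.card (Bad R M) ≤ Nat.card R :=
      Nat.card_le_card_of_injective Subtype.val Subtype.val_injective
    calc Nat.card (Bad R M) ^ 6 * Nat.card (Module.End R M)
        ≤ Nat.card R ^ 6 * 1 := Nat.mul_le_mul (Nat.pow_le_pow_left h2 6) h1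
      _ = Nat.card R ^ 6 := mul_one _
  · have hnu : ∀ r : R, r ∈ Bad R M → ¬ IsUnit r := by
      rintro r ⟨l, hl, hg⟩ ⟨u, rfl⟩
      have hl0 : ∀ m, l m = 0 := by
        intro m
        have := hl ((u⁻¹ : Rˣ) • m)
        rwa [Units.smul_def, smul_smul, Units.mul_inv, one_smul] at this
      have h1 : (1 : Module.End R M) = 0 := hg 1 fun m => hl0 _
      exact one_ne_zero h1
    have hcard : Nat.card (Bad R M) + Nat.card Rˣ ≤ Nat.card R := by
      let F : Bad R M ⊕ Rˣ → R := Sum.elim Subtype.val Units.val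
      have hF : Function.Injective F := by
        rintro (a | a) (b | b) h
        · exact congrArg Sum.inl (Subtype.ext h)
        · exact absurd ⟨b, h.symm⟩ (hnu a.1 a.2)
        · exact absurd ⟨a, h⟩ (hnu b.1 b.2)
        · exact congrArg Sum.inr (Units.ext h)
      rw [← Nat.card_sum]
      exact Nat.card_le_card_of_injective F hF
    have hu := card_le_units R
    have hb := bad_mul_units R M
    have he := card_end_le_units R M
    set b := Nat.card (Bad R M)
    set x := Nat.card (Module.End R M)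
    set n := Nat.card R
    set y := Nat.card (Module.End R M)ˣ
    have h4 : 4 * b ≤ 3 * n := by omega
    have hbx : b * x ≤ 4 * n := by
      calc b * x ≤ b * (4 * y) := Nat.mul_le_mul_left _ he
        _ = 4 * (b * y) := by ring
        _ ≤ 4 * n := Nat.mul_le_mul_left _ hb
    rcases le_or_gt x 5 with hx | hx
    · have h6 : (4 * b) ^ 6 ≤ (3 * n) ^ 6 := Nat.pow_le_pow_left h4 6
      have h7 : 4096 * b ^ 6 ≤ 729 * n ^ 6 := by
        have e1 : (4 * b) ^ 6 = 4096 * b ^ 6 := by ring
        have e2 : (3 * n) ^ 6 = 729 * n ^ 6 := by ring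
        rw [e1, e2] at h6; exact h6
      calc b ^ 6 * x ≤ b ^ 6 * 5 := Nat.mul_le_mul_left _ hx
        _ ≤ n ^ 6 := by
          have : 0 ≤ n ^ 6 := Nat.zero_le _
          omega
    · have h6 : (b * x) ^ 6 ≤ (4 * n) ^ 6 := Nat.pow_le_pow_left hbx 6
      have h7 : b ^ 6 * x * x ^ 5 ≤ 4096 * n ^ 6 := by
        have e1 : (b * x) ^ 6 = b ^ 6 * x * x ^ 5 := by ring
        have e2 : (4 * n) ^ 6 = 4096 * n ^ 6 := by ring
        rw [e1, e2] at h6; exact h6
      have h8 : 7776 ≤ x ^ 5 := by
        calc 7776 = 6 ^ 5 := by norm_num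
          _ ≤ x ^ 5 := Nat.pow_le_pow_left hx 5
      have h9 : b ^ 6 * x * 7776 ≤ 4096 * n ^ 6 := le_trans (Nat.mul_le_mul_left _ h8) h7
      omega

end Pool.Agent.H42.OD
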