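import Mathlib
import Pool.Agent.H42.OD.ODDefs
import Pool.Agent.H42.OD.Blk

/-!
# The bound for a product of simple rings (module H42 OD PRD)

PROOF.  Let `A = Π i, R i`, `e_i = Pi.single i 1`, central idempotents with sum `1` and product zero for different
indices.  Let `M_i = {m ∈ M | e_i • m = m}`, a `ZMod 2`-subspace of `M` (additive maps commute with the action of
`ZMod 2`: `ZMod.map_smul`).  It is an `R i`-module for `r • m = (Pi.single i r) • m` (define the instance
locally; `Pi.single i (r s) = Pi.single i r * Pi.single i s`, `Pi.single i (r + s)`, ..).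
(1) `|End_A M| ≤ ∏_i |End_{R i} M_i|`: `φ ↦ (φ restricted to M_i)_i` is injective since `m = ∑ e_i • m`.
(2) `|Bad A M| ≤ ∏_i |Bad (R i) M_i|`: if `a ∈ Bad A M`, with the functional `l`, then `a i ∈ Bad (R i) M_i`, with
the restriction of `l`: for `m ∈ M_i`, `Pi.single i (a i) • m = a • m` (`m = e_i • m`), and if `φ_i ∈ End_{R i} M_i`
satisfies `l ∘ φ_i = 0` then `φ m = φ_i (e_i • m)` is in `End_A M` (`e_i • (a • m) = Pi.single i (a i) • (e_i • m)`),
`l ∘ φ = 0`, so `φ = 0` and `φ_i = 0`.  And `a ↦ (a i)_i` is injective.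
(3) Multiply the inequalities `bad_simple (R i) M_i`; `|A| = ∏_i |R i|` (`Nat.card_pi`).
(The index type may be replaced by `Fin n` if that helps; `R i` in one universe.)
-/

namespace Pool.Agent.H42.OD

section piPart

variable {ι : Type} [Fintype ι] [DecidableEq ι] (R : ι → Type) [∀ i, Ring (R i)]
  (M : Type) [AddCommGroup M] [Module (Π i, R i) M] [Module (ZMod 2) M]

/-- The part of `M` on which the `i`-th idempotent is the identity. -/
def piPart (i : ι) : Submodule (ZMod 2) M where
  carrier := {m | (Pi.single i (1 : R i) : Π i, R i) • m = m}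
  add_mem' := by
    intro a b ha hb
    simp only [Set.mem_setOf_eq] at ha hb ⊢
    rw [smul_add, ha, hb]
  zero_mem' := by
    simp only [Set.mem_setOf_eq]
    rw [smul_zero]
  smul_mem' := by
    intro c m hm
    simp only [Set.mem_setOf_eq] at hm ⊢
    have h := ZMod.map_smul (DistribSMul.toAddMonoidHom M (Pi.single i (1 : R i) : Π i, R i)) c m
    simp only [DistribSMul.toAddMonoidHom_apply] at h
    rw [h, hm]

theorem mem_piPart {i : ι} {m : M} :
    m ∈ piPart R M i ↔ (Pi.single i (1 : R i) : Π i, R i) • m = m := Iff.rfl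

theorem single_smul_mem (i : ι) (r : R i) (m : M) :
    (Pi.single i r : Π i, R i) • m ∈ piPart R M i := by
  rw [mem_piPart, smul_smul, ← Pi.single_mul, one_mul]

/-- The action of the `i`-th factor. -/
@[reducible] def piPartModule (i : ι) : Module (R i) (piPart R M i) where
  smul r m := ⟨(Pi.single i r : Π i, R i) • (m : M), single_smul_mem R M i r m⟩
  one_smul m := Subtype.ext m.2
  mul_smul r s m := Subtype.ext (by
    change (Pi.single i (r * s) : Π i, R i) • (m : M) =
      (Pi.single i r : Π i, R i) • (Pi.single i s : Π i, R i) • (m : M)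
    rw [smul_smul, ← Pi.single_mul])
  smul_zero r := Subtype.ext (by
    change (Pi.single i r : Π i, R i) • (0 : M) = 0
    rw [smul_zero])
  smul_add r a b := Subtype.ext (by
    change (Pi.single i r : Π i, R i) • ((a : M) + (b : M)) = _ + _
    rw [smul_add]
    rfl)
  add_smul r s m := Subtype.ext (by
    change (Pi.single i (r + s) : Π i, R i) • (m : M) =
      (Pi.single i r : Π i, R i) • (m : M) + (Pi.single i s : Π i, R i) • (m : M)
    rw [Pi.single_add, add_smul])
  zero_smul m := Subtype.ext (by
    change (Pi.single i (0 : R i) : Π i, R i) • (m : M) = 0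
    rw [Pi.single_zero, zero_smul])

attribute [local instance] piPartModule

theorem coe_smul_piPart (i : ι) (r : R i) (m : piPart R M i) :
    ((r • m : piPart R M i) : M) = (Pi.single i r : Π i, R i) • (m : M) := rfl

theorem single_apply_smul (i : ι) (a : Π i, R i) (m : M) (hm : m ∈ piPart R M i) :
    (Pi.single i (a i) : Π i, R i) • m = a • m := by
  have h1 : a * Pi.single i (1 : R i) = Pi.single i (a i) := by
    ext j
    rcases eq_or_ne j i with rfl | hj
    · simp
    · simp [Pi.single_eq_of_ne hj]
  rw [← h1, mul_smul, (mem_piPart R M).1 hm]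

theorem sum_single_smul (m : M) :
    ∑ i, (Pi.single i (1 : R i) : Π i, R i) • m = m := by
  rw [← Finset.sum_smul]
  have h := Finset.univ_sum_single (1 : Π i, R i)
  have h2 : ∑ i, (Pi.single i (1 : R i) : Π i, R i) = 1 := h
  rw [h2, one_smul]

/-- The restriction of an endomorphism. -/
def piRes (i : ι) (φ : Module.End (Π i, R i) M) : Module.End (R i) (piPart R M i) where
  toFun m := ⟨φ m, by
    rw [mem_piPart, ← map_smul, (mem_piPart R M).1 m.2]⟩
  map_add' a b := Subtype.ext (by
    change φ ((a : M) + (b : M)) = φ a + φ b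
    rw [map_add])
  map_smul' r m := Subtype.ext (by
    change φ ((Pi.single i r : Π i, R i) • (m : M)) = (Pi.single i r : Π i, R i) • φ m
    rw [map_smul])

/-- The extension of an endomorphism. -/
def piExt (i : ι) (φ : Module.End (R i) (piPart R M i)) : Module.End (Π i, R i) M where
  toFun m := (φ ⟨(Pi.single i (1 : R i) : Π i, R i) • m, single_smul_mem R M i 1 m⟩ : M)
  map_add' a b := by
    have h : (⟨(Pi.single i (1 : R i) : Π i, R i) • (a + b), single_smul_mem R M i 1 (a + b)⟩ :
        piPart R M i) = ⟨(Pi.single i (1 : R i) : Π i, R i) • a, single_smul_mem R M i 1 a⟩ +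
          ⟨(Pi.single i (1 : R i) : Π i, R i) • b, single_smul_mem R M i 1 b⟩ := by
      apply Subtype.ext
      change _ = (Pi.single i (1 : R i) : Π i, R i) • a + (Pi.single i (1 : R i) : Π i, R i) • b
      exact smul_add _ _ _
    rw [h, map_add]
    rfl
  map_smul' a m := by
    have h : (⟨(Pi.single i (1 : R i) : Π i, R i) • (a • m), single_smul_mem R M i 1 (a • m)⟩ :
        piPart R M i) =
        a i • ⟨(Pi.single i (1 : R i) : Π i, R i) • m, single_smul_mem R M i 1 m⟩ := by
      apply Subtype.ext
      rw [coe_smul_piPart]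
      change (Pi.single i (1 : R i) : Π i, R i) • (a • m) =
        (Pi.single i (a i) : Π i, R i) • (Pi.single i (1 : R i) : Π i, R i) • m
      rw [smul_smul, smul_smul]
      congr 1
      ext j
      rcases eq_or_ne j i with rfl | hj
      · simp
      · simp [Pi.single_eq_of_ne hj]
    rw [h, map_smul, coe_smul_piPart, RingHom.id_apply]
    exact single_apply_smul R M i a _ (Subtype.mem _)

end piPart

attribute [local instance] piPartModule

theorem bad_pi {ι : Type} [Fintype ι] [DecidableEq ι] (R : ι → Type) [∀ i, Ring (R i)]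
    [∀ i, Finite (R i)] [∀ i, IsSimpleRing (R i)] (M : Type) [AddCommGroup M]
    [Module (Π i, R i) M] [Module (ZMod 2) M] [Finite M] :
    Nat.card (Bad (Π i, R i) M) ^ 6 * Nat.card (Module.End (Π i, R i) M) ≤
      Nat.card (Π i, R i) ^ 6 := by
  have hfin : ∀ i, Finite (Module.End (R i) (piPart R M i)) := fun i =>
    Finite.of_injective (fun f => (f : piPart R M i → piPart R M i)) DFunLike.coe_injective
  have h1 : Nat.card (Module.End (Π i, R i) M) ≤
      ∏ i, Nat.card (Module.End (R i) (piPart R M i)) := by
    rw [← Nat.card_pi]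
    refine Nat.card_le_card_of_injective (fun φ i => piRes R M i φ) ?_
    intro φ ψ h
    ext m
    rw [← sum_single_smul R M m, map_sum, map_sum]
    refine Finset.sum_congr rfl fun i _ => ?_
    have h2 := congrFun h i
    have h3 := congrArg (fun F : Module.End (R i) (piPart R M i) =>
      ((F ⟨_, single_smul_mem R M i 1 m⟩ : piPart R M i) : M)) h2
    exact h3
  have h2 : Nat.card (Bad (Π i, R i) M) ≤ ∏ i, Nat.card (Bad (R i) (piPart R M i)) := by
    rw [← Nat.card_pi]
    have hbad : ∀ a ∈ Bad (Π i, R i) M, ∀ i, a i ∈ Bad (R i) (piPart R M i) := by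
      rintro a ⟨l, hl1, hl2⟩ i
      refine ⟨l.comp (piPart R M i).subtype, fun m => ?_, fun φ hφ => ?_⟩
      · change l ((a i • m : piPart R M i) : M) = 0
        rw [coe_smul_piPart, single_apply_smul R M i a _ m.2]
        exact hl1 m
      · have h3 := hl2 (piExt R M i φ) (fun m => hφ _)
        ext m
        have h4 := congrArg (fun F : Module.End (Π i, R i) M => F m) h3
        have h5 : (⟨(Pi.single i (1 : R i) : Π i, R i) • (m : M), single_smul_mem R M i 1 m⟩ :
            piPart R M i) = m := Subtype.ext m.2
        change ((φ ⟨_, _⟩ : piPart R M i) : M) = 0 at h4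
        rw [h5] at h4
        exact h4
    refine Nat.card_le_card_of_injective
      (fun a i => (⟨(a : Π i, R i) i, hbad a.1 a.2 i⟩ : Bad (R i) (piPart R M i))) ?_
    intro a b h
    apply Subtype.ext
    ext i
    exact congrArg Subtype.val (congrFun h i)
  calc Nat.card (Bad (Π i, R i) M) ^ 6 * Nat.card (Module.End (Π i, R i) M)
      ≤ (∏ i, Nat.card (Bad (R i) (piPart R M i))) ^ 6 *
        ∏ i, Nat.card (Module.End (R i) (piPart R M i)) :=
        Nat.mul_le_mul (Nat.pow_le_pow_left h2 6) h1
    _ = ∏ i, (Nat.card (Bad (R i) (piPart R M i)) ^ 6 *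
        Nat.card (Module.End (R i) (piPart R M i))) := by
        rw [Finset.prod_mul_distrib, Finset.prod_pow]
    _ ≤ ∏ i, Nat.card (R i) ^ 6 :=
        Finset.prod_le_prod' fun i _ => bad_simple (R i) (piPart R M i)
    _ = Nat.card (Π i, R i) ^ 6 := by
        rw [Nat.card_pi, Finset.prod_pow]

end Pool.Agent.H42.OD
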