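import Mathlib
import Pool.Agent.H42.OD.ODDefs
import Pool.Agent.H42.OD.Prod

/-!
# The bound for a semisimple ring (module H42 OD SEM)

PROOF.  `IsSemisimpleRing.exists_ringEquiv_pi_matrix_divisionRing R` (or the `algEquiv` version) gives
`e : R ≃+* Π i, Matrix (Fin (d i)) (Fin (d i)) (D i)`, `D i` division rings, `d i ≠ 0`; the factors are finite
(images of the finite `R` under the surjective projections) and simple (`Matrix.isSimpleRing` or the instance in
`Mathlib.RingTheory.SimpleRing.Matrix`; `D i` is a simple ring).  Make `M` a module over the product `A` by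
`Module.compHom M (e.symm : A →+* R)`; `Module.End A M` and `Module.End R M` have the same elements, `Bad A M` is the
image of `Bad R M` under `e`.  Apply `bad_pi`.
-/

namespace Pool.Agent.H42.OD

theorem bad_semi (R M : Type) [Ring R] [Finite R] [IsSemisimpleRing R] [AddCommGroup M]
    [Module R M] [Module (ZMod 2) M] [Finite M] :
    Nat.card (Bad R M) ^ 6 * Nat.card (Module.End R M) ≤ Nat.card R ^ 6 := by
  classical
  obtain ⟨n, D, d, hD, hd, ⟨e⟩⟩ := IsSemisimpleRing.exists_ringEquiv_pi_matrix_divisionRing R
  have hfA : Finite (Π i, Matrix (Fin (d i)) (Fin (d i)) (D i)) := Finite.of_equiv R e.toEquiv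
  have hfi : ∀ i, Finite (Matrix (Fin (d i)) (Fin (d i)) (D i)) := fun i =>
    Finite.of_surjective (fun a : (Π i, Matrix (Fin (d i)) (Fin (d i)) (D i)) => a i)
      (Function.surjective_eval i)
  have hsi : ∀ i, IsSimpleRing (Matrix (Fin (d i)) (Fin (d i)) (D i)) := fun i => by
    have := hd i
    infer_instance
  let modA : Module (Π i, Matrix (Fin (d i)) (Fin (d i)) (D i)) M :=
    Module.compHom M (e.symm.toRingHom)
  have hsm : ∀ (a : Π i, Matrix (Fin (d i)) (Fin (d i)) (D i)) (m : M), a • m = e.symm a • m :=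
    fun a m => rfl
  have h := bad_pi (fun i => Matrix (Fin (d i)) (Fin (d i)) (D i)) M
  -- endomorphisms
  let E1 : Module.End (Π i, Matrix (Fin (d i)) (Fin (d i)) (D i)) M → Module.End R M := fun φ =>
    { toFun := φ
      map_add' := φ.map_add
      map_smul' := fun r m => by
        have h1 : r • m = e r • m := by rw [hsm, e.symm_apply_apply]
        have h2 : r • φ m = e r • φ m := by rw [hsm, e.symm_apply_apply]
        rw [RingHom.id_apply, h1, h2]
        exact φ.map_smul _ _ }
  let E2 : Module.End R M → Module.End (Π i, Matrix (Fin (d i)) (Fin (d i)) (D i)) M := fun φ =>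
    { toFun := φ
      map_add' := φ.map_add
      map_smul' := fun a m => by
        rw [RingHom.id_apply, hsm, hsm]
        exact φ.map_smul _ _ }
  have hE1 : ∀ φ m, E1 φ m = φ m := fun φ m => rfl
  have hE2 : ∀ φ m, E2 φ m = φ m := fun φ m => rfl
  have hcE : Nat.card (Module.End R M) =
      Nat.card (Module.End (Π i, Matrix (Fin (d i)) (Fin (d i)) (D i)) M) :=
    Nat.card_congr ⟨E2, E1, fun φ => LinearMap.ext fun m => rfl, fun φ => LinearMap.ext fun m => rfl⟩
  have hB : ∀ r : R, r ∈ Bad R M ↔
      e r ∈ Bad (Π i, Matrix (Fin (d i)) (Fin (d i)) (D i)) M := by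
    intro r
    constructor
    · rintro ⟨l, hl, hg⟩
      refine ⟨l, fun m => ?_, fun φ hφ => ?_⟩
      · rw [hsm, e.symm_apply_apply]; exact hl m
      · have := hg (E1 φ) hφ
        refine LinearMap.ext fun m => ?_
        exact LinearMap.congr_fun this m
    · rintro ⟨l, hl, hg⟩
      refine ⟨l, fun m => ?_, fun φ hφ => ?_⟩
      · have := hl m
        rwa [hsm, e.symm_apply_apply] at this
      · have := hg (E2 φ) hφ
        refine LinearMap.ext fun m => ?_
        exact LinearMap.congr_fun this m
  have hcB : Nat.card (Bad R M) =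
      Nat.card (Bad (Π i, Matrix (Fin (d i)) (Fin (d i)) (D i)) M) :=
    Nat.card_congr (e.toEquiv.subtypeEquiv hB)
  have hcR : Nat.card R = Nat.card (Π i, Matrix (Fin (d i)) (Fin (d i)) (D i)) :=
    Nat.card_congr e.toEquiv
  rw [hcE, hcB, hcR]
  exact h

end Pool.Agent.H42.OD
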