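import Mathlib
import Pool.Agent.H52.CS.EndRed
import Pool.Agent.H42.OD.Semi
import Pool.Agent.H42.OD.Sec
import Pool.Agent.H42.OD.RedTwo
import Pool.Agent.H42.OD.Act
import Pool.Agent.H42.OD.Cnt

/-!
# The failing types for a simple space of Galois type, group order not divisible by four (module H42 OD FAL)

`W` simple of Galois type, the order of the group not divisible by four, `dim W ≥ 2`, `e = dim Endo`: `|Fail|^6 2^e ≤ (2^g)^6`.

PROOF.  Take `x₀ ∈ X` (`X` is not empty: `hS.card`, `hS.pos`), `H`, `κ` from `od_section`, `ρV` from `od_act`,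
`R = MonoidAlgebra (ZMod 2) H`: a finite ring, semisimple by Maschke (`|H|` is odd, so invertible in `ZMod 2`:
`NeZero`/`Invertible` instance; `MonoidAlgebra` Maschke instance in `Mathlib.RepresentationTheory.Maschke`).
`M = red 2 W` is an `R`-module via `MonoidAlgebra.lift _ _ _ ρV : R →ₐ[ZMod 2] Module.End (ZMod 2) M`
(`Module.compHom`), finite.
(1) `|End_R M| ≥ 2^e`: `end_red hW.2.2.1 2` gives `e ≤ dim EndP 𝒢 2 W`, and an element `φ` of `EndP 𝒢 2 W` is
`R`-linear: it commutes with `ρV h` for all `h ∈ H` (choose `π ∈ 𝒢` with `h f = f ∘ π`, from `mem_Gr`).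
(2) For `x` with `κ x ∈ H` let `a x = MonoidAlgebra.single ⟨κ x, _⟩ 1 ∈ R` (`a x = 0` otherwise).  Let
`t Φ = ∑_{x, κ x ∈ H, x ∈ Φ} a x`.  If `Φ ∈ Fail c 𝒢 W` then `t Φ ∈ Bad R M`: let `φ` be as in `Fail`.
(i) `∑_{κ x ∈ H, x ∈ Φ} φ w x = 0` for `w ∈ W`: by equivariance `φ w x = φ w (π x₀) = φ ((ρ π)⁻¹ w) x₀ = φ (κ x w) x₀`
(`x = π x₀`), so `∑_{κ x ∈ H} φ w x = φ (∑_{κ x ∈ H} κ x w) x₀ = 0`; `φ w` is odd (`range_smp`), so with
`ε_x = 1` if `x ∈ Φ`, `-1` if not, `0 = ∑_{x ∈ Φ} φ w x = ∑_{κ x ∈ H} ε_x φ w x = 2 ∑_{κ x ∈ H, x ∈ Φ} φ w x -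
∑_{κ x ∈ H} φ w x` (the pairs `{x, c x}` have one point with `κ x ∈ H` and one point in `Φ`).
(ii) So for every `f ∈ red 2 (range φ)`, `∑_{κ x ∈ H, x ∈ Φ} f x = 0` (`f` is the reduction of an integer valued
function in `range φ`).
(iii) Let `ψ` be as in `red_iso_two` and `l v = ψ v x₀`.  For `x` with `κ x ∈ H`: `l (ρV (κ x) v) = ψ v x` (for
`x = π x₀`, `κ x f = f ∘ π`, `(ρV (κ x) v) = v ∘ π`, equivariance of `ψ`).  So `l (t Φ • v) = ∑_{κ x ∈ H, x ∈ Φ} ψ v x = 0`.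
(iv) If `φ' ∈ End_R M` and `l (φ' v) = 0` for all `v` then for all `x` with `κ x ∈ H`: `ψ (φ' v) x = l (ρV (κ x) (φ' v)) =
l (φ' (ρV (κ x) v)) = 0`; for the other `x`, `ψ (φ' v) x = - ψ (φ' v) (c x) = 0` (functions in the range of `ψ`, which is
`red 2 (range φ)`, are odd: `red_odd`).  So `ψ (φ' v) = 0` and `φ' v = 0`.
(3) By `od_count` with `B = Bad R M` (the `a x` with `κ x ∈ H` are all `single h 1`, `h ∈ H`, as every `h ∈ H ≤ Gr` is
some `κ x`; they generate `R` as an additive group, `ZMod 2` coefficients): `|Fail| |R| ≤ 2^g |Bad|`.  By `bad_semi`,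
`|Bad|^6 2^e ≤ |R|^6`.  So `|Fail|^6 2^e |R|^6 ≤ (2^g)^6 |Bad|^6 2^e ≤ (2^g)^6 |R|^6`; cancel `|R|^6`.
-/

namespace Pool.Agent.H42.OD

open Module Pool.Agent.H52.AD Pool.Agent.H52.CS

/-- the group ring acts -/
noncomputable def falMod {G M : Type} [Group G] [AddCommGroup M] [Module (ZMod 2) M]
    (ρV : G →* Module.End (ZMod 2) M) : Module (MonoidAlgebra (ZMod 2) G) M :=
  Module.compHom M (MonoidAlgebra.lift (ZMod 2) (Module.End (ZMod 2) M) G ρV).toRingHom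

theorem fal_single {G M : Type} [Group G] [AddCommGroup M] [Module (ZMod 2) M]
    (ρV : G →* Module.End (ZMod 2) M) (h : G) (b : ZMod 2) (m : M) :
    letI := falMod ρV
    (MonoidAlgebra.single h b : MonoidAlgebra (ZMod 2) G) • m = b • ρV h m := by
  show (MonoidAlgebra.lift (ZMod 2) (Module.End (ZMod 2) M) G ρV (MonoidAlgebra.single h b)) m = _
  rw [MonoidAlgebra.lift_single]
  rfl

theorem fal_smul {G M : Type} [Group G] [AddCommGroup M] [Module (ZMod 2) M]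
    (ρV : G →* Module.End (ZMod 2) M) (φ : M →ₗ[ZMod 2] M)
    (hφ : ∀ h m, φ (ρV h m) = ρV h (φ m)) (r : MonoidAlgebra (ZMod 2) G) (m : M) :
    letI := falMod ρV
    φ (r • m) = r • φ m := by
  letI := falMod ρV
  show φ (r • m) = r • φ m
  induction r using MonoidAlgebra.induction_linear with
  | zero => rw [zero_smul, zero_smul, map_zero]
  | add x y hx hy => rw [add_smul, add_smul, map_add, hx, hy]
  | single h b => rw [fal_single, fal_single, map_smul, hφ]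

open Classical in
/-- the half sums vanish -/
theorem fal_half {X : Type} [Fintype X] {c : Equiv.Perm X} (hcc : ∀ x, c (c x) = x)
    (p : X → Prop) (hp : ∀ x, p (c x) ↔ ¬ p x) (Φ : Set X) (hΦ : ∀ x, c x ∈ Φ ↔ x ∉ Φ)
    (f : X → ℚ) (hf : ∀ x, f (c x) = - f x) (h1 : ∑ x, (if p x then f x else 0) = 0)
    (h2 : ∑ x, (if x ∈ Φ then f x else 0) = 0) :
    ∑ x, (if p x ∧ x ∈ Φ then f x else 0) = 0 := by
  have e1 : ∑ x, (if x ∈ Φ then f x else 0) = ∑ x, (if p x ∧ x ∈ Φ then f x else 0) +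
      ∑ x, (if ¬ p x ∧ x ∈ Φ then f x else 0) := by
    rw [← Finset.sum_add_distrib]
    refine Finset.sum_congr rfl fun x _ => ?_
    by_cases ha : p x <;> by_cases hb : x ∈ Φ <;> simp [ha, hb]
  have e2 : ∑ x, (if ¬ p x ∧ x ∈ Φ then f x else 0) =
      ∑ x, (if p x ∧ x ∉ Φ then - f x else 0) := by
    rw [← Equiv.sum_comp c (fun x => if ¬ p x ∧ x ∈ Φ then f x else 0)]
    refine Finset.sum_congr rfl fun x _ => ?_
    rw [hf]
    by_cases ha : p x <;> by_cases hb : x ∈ Φ <;> simp [ha, hb, hp, hΦ]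
  have e3 : ∑ x, (if p x then f x else 0) = ∑ x, (if p x ∧ x ∈ Φ then f x else 0) -
      ∑ x, (if p x ∧ x ∉ Φ then - f x else 0) := by
    rw [← Finset.sum_sub_distrib]
    refine Finset.sum_congr rfl fun x _ => ?_
    by_cases ha : p x <;> by_cases hb : x ∈ Φ <;> simp [ha, hb]
  rw [e1, e2] at h2
  rw [e3] at h1
  linarith

theorem od_fail {X : Type} [Fintype X] {c : Equiv.Perm X} {𝒢 : Subgroup (Equiv.Perm X)} {g : ℕ}
    {W : Submodule ℚ (X → ℚ)} (hS : Sys c 𝒢 g) (hW : Smp c 𝒢 W) (hG : Gal 𝒢 W) (h4 : ¬ 4 ∣ Nat.card (Gm 𝒢 W))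
    (hd : 2 ≤ finrank ℚ W) :
    Nat.card (Fail c 𝒢 W) ^ 6 * 2 ^ finrank ℚ (Endo 𝒢 W) ≤ (2 ^ g) ^ 6 := by
  classical
  have hst : Stb 𝒢 W := hW.2.2.1
  have hcomm := hS.comm
  haveI hX : Nonempty X := by
    rw [← Fintype.card_pos_iff, hS.card]
    have := hS.pos
    omega
  obtain ⟨x₀⟩ := hX
  obtain ⟨H, κ, hHle, hHfin, hHodd, hneg, hκop, hκc, hκsurj, hsum⟩ :=
    od_section hS hW hG h4 hd x₀
  obtain ⟨ρV, hρV⟩ := od_act (W := W) hst H hHle
  haveI : Finite H := hHfin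
  letI instM : Module (MonoidAlgebra (ZMod 2) H) (red 2 W) := falMod ρV
  haveI hMfin : Finite (red 2 W) := inferInstance
  haveI hRfin : Finite (MonoidAlgebra (ZMod 2) H) :=
    Finite.of_injective (fun r : MonoidAlgebra (ZMod 2) H => fun h => r.coeff h) (by
      intro r r' h
      apply MonoidAlgebra.ext
      exact Finsupp.ext fun a => congrFun h a)
  haveI hne : NeZero ((Nat.card H : ℕ) : ZMod 2) := ⟨by
    rw [Ne, ZMod.natCast_eq_zero_iff]
    intro h
    exact (Nat.not_even_iff_odd.2 hHodd) (even_iff_two_dvd.2 h)⟩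
  haveI hss : IsSemisimpleRing (MonoidAlgebra (ZMod 2) H) := inferInstance
  -- the operator `κ x` for `x = π x₀`
  have hκ1 : ∀ π (hπ : π ∈ 𝒢) (f : W) (y : X), (κ (π x₀) f : X → ℚ) y = (f : X → ℚ) (π y) := by
    intro π hπ f y
    have e1 := hκop ⟨π, hπ⟩
    have e2 : κ (π x₀) = (rediso_op hst ⟨π, hπ⟩)⁻¹ := e1
    rw [e2, ← map_inv, rediso_op_apply]
    show (f : X → ℚ) ((((⟨π, hπ⟩ : 𝒢)⁻¹ : 𝒢) : Equiv.Perm X)⁻¹ y) = _
    rw [Subgroup.coe_inv, inv_inv]
  have hop : ∀ h : H, ∃ π ∈ 𝒢, ∀ (f : W) (x : X),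
      ((h : W ≃ₗ[ℚ] W) f : X → ℚ) x = (f : X → ℚ) (π x) := by
    intro h
    obtain ⟨π, hπ, hh⟩ := (mem_Gr hst _).1 (hHle h.2)
    exact ⟨π⁻¹, 𝒢.inv_mem hπ, hh⟩
  -- (1) the endomorphisms
  have hEnd : 2 ^ finrank ℚ (Endo 𝒢 W) ≤
      Nat.card (Module.End (MonoidAlgebra (ZMod 2) H) (red 2 W)) := by
    haveI : Finite (Module.End (MonoidAlgebra (ZMod 2) H) (red 2 W)) :=
      Finite.of_injective (fun φ : Module.End (MonoidAlgebra (ZMod 2) H) (red 2 W) =>
        (φ : red 2 W → red 2 W)) DFunLike.coe_injective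
    haveI : Finite (Module.End (ZMod 2) (red 2 W)) :=
      Finite.of_injective (fun φ : Module.End (ZMod 2) (red 2 W) =>
        (φ : red 2 W → red 2 W)) DFunLike.coe_injective
    have h1 : 2 ^ finrank ℚ (Endo 𝒢 W) ≤ Nat.card (EndP 𝒢 2 W) := by
      have h2 : Nat.card (EndP 𝒢 2 W) = 2 ^ finrank (ZMod 2) (EndP 𝒢 2 W) := by
        rw [Module.natCard_eq_pow_finrank (K := ZMod 2), Nat.card_zmod]
      rw [h2]
      exact Nat.pow_le_pow_right (by norm_num) (end_red hst 2)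
    refine h1.trans ?_
    have hcm : ∀ φ ∈ EndP 𝒢 2 W, ∀ (h : H) (m : red 2 W), φ (ρV h m) = ρV h (φ m) := by
      intro φ hφ h m
      obtain ⟨π, hπ, hh⟩ := hop h
      apply Subtype.ext
      funext x
      rw [hρV h π hπ hh (φ m) x]
      exact hφ π hπ m (ρV h m) (hρV h π hπ hh m) x
    refine Nat.card_le_card_of_injective
      (fun φ : EndP 𝒢 2 W => (
        { toFun := fun m => (φ : Module.End (ZMod 2) (red 2 W)) m
          map_add' := fun m m' => map_add _ m m'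
          map_smul' := fun r m => fal_smul ρV _ (hcm φ φ.2) r m } :
          Module.End (MonoidAlgebra (ZMod 2) H) (red 2 W))) ?_
    intro φ φ' h
    apply Subtype.ext
    ext1 m
    exact LinearMap.congr_fun h m
  -- (2) the elements `a x`
  obtain ⟨a, ha⟩ : ∃ a : X → MonoidAlgebra (ZMod 2) H, ∀ x (h : κ x ∈ H),
      a x = MonoidAlgebra.single ⟨κ x, h⟩ 1 :=
    ⟨fun x => if h : κ x ∈ H then MonoidAlgebra.single ⟨κ x, h⟩ 1 else 0,
      fun x h => by simp [h]⟩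
  have haop : ∀ x, κ x ∈ H → ∃ π ∈ 𝒢, π x₀ = x ∧ ∀ (v : red 2 W) (y : X),
      ((a x • v : red 2 W) : X → ZMod 2) y = (v : X → ZMod 2) (π y) := by
    intro x hx
    obtain ⟨π, hπ, hπx⟩ := hS.trans x₀ x
    refine ⟨π, hπ, hπx, fun v y => ?_⟩
    rw [ha x hx]
    have e1 := fal_single ρV ⟨κ x, hx⟩ 1 v
    have e2 : ((MonoidAlgebra.single (⟨κ x, hx⟩ : H) (1 : ZMod 2) :
        MonoidAlgebra (ZMod 2) H) • v : red 2 W) = ρV ⟨κ x, hx⟩ v := by
      rw [e1, one_smul]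
    rw [e2]
    refine hρV ⟨κ x, hx⟩ π hπ ?_ v y
    intro f z
    show (κ x f : X → ℚ) z = _
    rw [← hπx]
    exact hκ1 π hπ f z
  have hz2 : ∀ b : ZMod 2, b = 0 ∨ b = 1 := by decide
  have hgen : AddSubgroup.closure {r | ∃ x, κ x ∈ H ∧ a x = r} = ⊤ := by
    rw [eq_top_iff]
    intro r _
    induction r using MonoidAlgebra.induction_linear with
    | zero => exact AddSubgroup.zero_mem _
    | add x y hx hy => exact AddSubgroup.add_mem _ (hx trivial) (hy trivial)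
    | single h b =>
      rcases hz2 b with rfl | rfl
      · rw [MonoidAlgebra.single_zero]
        exact AddSubgroup.zero_mem _
      · obtain ⟨x, hx⟩ := hκsurj h (hHle h.2)
        have hxH : κ x ∈ H := by
          rw [hx]
          exact h.2
        refine AddSubgroup.subset_closure ⟨x, hxH, ?_⟩
        rw [ha x hxH]
        congr 1
        exact Subtype.ext hx
  have h2R : ∀ r : MonoidAlgebra (ZMod 2) H, r + r = 0 := by
    intro r
    have e1 : r + r = (2 : ZMod 2) • r := by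
      rw [show (2 : ZMod 2) = 1 + 1 by norm_num, add_smul, one_smul]
    rw [e1, show (2 : ZMod 2) = 0 from rfl, zero_smul]
  -- the main inclusion
  have hmain : ∀ Φ ∈ Fail c 𝒢 W, (∀ x, c x ∈ Φ ↔ x ∉ Φ) ∧
      ∑ x, (if κ x ∈ H ∧ x ∈ Φ then a x else 0) ∈
        Bad (MonoidAlgebra (ZMod 2) H) (red 2 W) := by
    rintro Φ ⟨hΦ, φ, hφ0, hφe, hφs⟩
    refine ⟨hΦ, ?_⟩
    have hφodd : ∀ (w : W) (x : X), φ w (c x) = - φ w x := by
      intro w x
      have e1 : ∀ y, ((-w : W) : X → ℚ) y = (w : X → ℚ) (c y) := by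
        intro y
        rw [hW.2.1 w w.2 y]
        rfl
      have e2 := hφe c hS.mem w (-w) e1 x
      rw [← e2, map_neg]
      rfl
    -- (i)
    have hi : ∀ w : W, ∑ x, (if κ x ∈ H ∧ x ∈ Φ then φ w x else 0) = 0 := by
      intro w
      have e1 : ∑ x, (if κ x ∈ H then φ w x else 0) = 0 := by
        have e2 : ∀ x, (if κ x ∈ H then φ w x else 0) =
            φ (if κ x ∈ H then κ x w else 0) x₀ := by
          intro x
          by_cases hx : κ x ∈ H
          · rw [if_pos hx, if_pos hx]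
            obtain ⟨π, hπ, hπx⟩ := hS.trans x₀ x
            have e3 := hφe π hπ w (κ x w) (fun y => by
              rw [← hπx]
              exact hκ1 π hπ w y) x₀
            rw [e3, hπx]
          · rw [if_neg hx, if_neg hx, map_zero]
            rfl
        rw [Finset.sum_congr rfl fun x _ => e2 x, ← Finset.sum_apply, ← map_sum]
        have e5 : ∑ x, (if κ x ∈ H then κ x w else 0) = 0 := hsum w
        rw [e5, map_zero]
        rfl
      have e6 : ∑ x, (if x ∈ Φ then φ w x else 0) = 0 := hφs w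
      exact fal_half hS.cc (fun x => κ x ∈ H) hκc Φ hΦ (φ w) (hφodd w) e1 e6
    -- (ii)
    have hii : ∀ f ∈ red 2 (LinearMap.range φ),
        ∑ x, (if κ x ∈ H ∧ x ∈ Φ then f x else 0) = 0 := by
      rintro _ ⟨u, ⟨w, hw⟩, rfl⟩
      have e1 := hi w
      have e2 : ∀ x, φ w x = (u x : ℚ) := fun x => congrFun hw x
      have e3 : ∑ x, (if κ x ∈ H ∧ x ∈ Φ then u x else 0) = 0 := by
        have e4 : ((∑ x, (if κ x ∈ H ∧ x ∈ Φ then u x else 0) : ℤ) : ℚ) = 0 := by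
          rw [← e1]
          push_cast
          refine Finset.sum_congr rfl fun x _ => ?_
          rw [e2]
        exact_mod_cast e4
      have e5 := congrArg (Int.cast : ℤ → ZMod 2) e3
      push_cast at e5
      exact e5
    obtain ⟨ψ, hψinj, hψe, hψr⟩ := red_iso_two hW H hHle hHodd hneg φ hφe hφ0
    have hψodd : ∀ (v : red 2 W) (x : X), ψ v (c x) = - ψ v x := by
      intro v x
      have e1 : ∀ y, ((-v : red 2 W) : X → ZMod 2) y = (v : X → ZMod 2) (c y) := by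
        intro y
        rw [red_odd 2 hW.2.1 v v.2 y]
        rfl
      have e2 := hψe c hS.mem v (-v) e1 x
      rw [← e2, map_neg]
      rfl
    have hl : ∀ x, κ x ∈ H → ∀ v : red 2 W, ψ (a x • v) x₀ = ψ v x := by
      intro x hx v
      obtain ⟨π, hπ, hπx, hav⟩ := haop x hx
      rw [hψe π hπ v (a x • v) (hav v) x₀, hπx]
    refine ⟨(LinearMap.proj x₀).comp ψ, ?_, ?_⟩
    · intro v
      show ψ ((∑ x, (if κ x ∈ H ∧ x ∈ Φ then a x else 0)) • v) x₀ = 0
      rw [Finset.sum_smul, map_sum, Finset.sum_apply]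
      rw [← hii (ψ v) (by rw [← hψr]; exact ⟨v, rfl⟩)]
      refine Finset.sum_congr rfl fun x _ => ?_
      by_cases hx : κ x ∈ H ∧ x ∈ Φ
      · rw [if_pos hx, if_pos hx]
        exact hl x hx.1 v
      · rw [if_neg hx, if_neg hx, zero_smul, map_zero]
        rfl
    · intro φ' hφ'
      have hφ'' : ∀ v, ψ (φ' v) x₀ = 0 := hφ'
      have e1 : ∀ (v : red 2 W) (x : X), κ x ∈ H → ψ (φ' v) x = 0 := by
        intro v x hx
        rw [← hl x hx (φ' v), ← map_smul φ', hφ'']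
      ext1 v
      apply hψinj
      funext x
      rw [LinearMap.zero_apply, map_zero, Pi.zero_apply]
      by_cases hx : κ x ∈ H
      · exact e1 v x hx
      · have e2 := e1 v (c x) ((hκc x).2 hx)
        rw [hψodd] at e2
        exact neg_eq_zero.1 e2
  have hcount := od_count c hS.cc g hS.card (fun x => κ x ∈ H) hκc (MonoidAlgebra (ZMod 2) H)
    h2R a hgen (Bad (MonoidAlgebra (ZMod 2) H) (red 2 W))
  have hbad := bad_semi (MonoidAlgebra (ZMod 2) H) (red 2 W)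
  have hle : Nat.card (Fail c 𝒢 W) ≤ Nat.card {Φ : Set X // (∀ x, c x ∈ Φ ↔ x ∉ Φ) ∧
      ∑ x, (if κ x ∈ H ∧ x ∈ Φ then a x else 0) ∈
        Bad (MonoidAlgebra (ZMod 2) H) (red 2 W)} := by
    refine Nat.card_le_card_of_injective (fun Φ : Fail c 𝒢 W => ⟨Φ.1, hmain Φ.1 Φ.2⟩) ?_
    intro Φ Φ' h
    have h' : Φ.1 = Φ'.1 := congrArg (fun z => z.1) h
    exact Subtype.ext h'
  have hR0 : 0 < Nat.card (MonoidAlgebra (ZMod 2) H) := Nat.card_pos
  have hA : Nat.card (Fail c 𝒢 W) * Nat.card (MonoidAlgebra (ZMod 2) H) ≤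
      2 ^ g * Nat.card (Bad (MonoidAlgebra (ZMod 2) H) (red 2 W)) :=
    (Nat.mul_le_mul_right _ hle).trans hcount
  refine Nat.le_of_mul_le_mul_right ?_ (pow_pos hR0 6)
  calc Nat.card (Fail c 𝒢 W) ^ 6 * 2 ^ finrank ℚ (Endo 𝒢 W) *
        Nat.card (MonoidAlgebra (ZMod 2) H) ^ 6 =
        (Nat.card (Fail c 𝒢 W) * Nat.card (MonoidAlgebra (ZMod 2) H)) ^ 6 *
          2 ^ finrank ℚ (Endo 𝒢 W) := by ring
    _ ≤ (2 ^ g * Nat.card (Bad (MonoidAlgebra (ZMod 2) H) (red 2 W))) ^ 6 *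
          Nat.card (Module.End (MonoidAlgebra (ZMod 2) H) (red 2 W)) :=
        Nat.mul_le_mul (Nat.pow_le_pow_left hA 6) hEnd
    _ = (2 ^ g) ^ 6 * (Nat.card (Bad (MonoidAlgebra (ZMod 2) H) (red 2 W)) ^ 6 *
          Nat.card (Module.End (MonoidAlgebra (ZMod 2) H) (red 2 W))) := by ring
    _ ≤ (2 ^ g) ^ 6 * Nat.card (MonoidAlgebra (ZMod 2) H) ^ 6 := Nat.mul_le_mul_left _ hbad

end Pool.Agent.H42.OD
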