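import Mathlib
import Pool.Agent.H52.AD.Dims
import Pool.Agent.H42.OD.Fal

/-!
# Simple spaces of Galois type of large dimension, group order not divisible by four (module H42 OD BIG)

PROOF.  Let `d = dim W`, `e = dim Endo`, `ν = dim Fix = d` (`fix_eq_dim`), `d = e n` (`endo_dvd_dim`), so `d n ≤ g` by the
last hypothesis, and `e^20 g^20 ≥ (e d n)^20 = d^40 > g^38`, so `e^20 > g^18`, `g^9 ≤ e^10` (see the end of the proof of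
`gal_big` in `Pool/Agent/H52/CS/GalBig.lean`).  By `od_fail`, `|Fail| ≤ 2^g (1/2)^(e/6)`, and `(1/2)^(e/6) ≤ 1/g²` for
large `g`: `2^e ≥ g^12` since `e ≥ g^(9/10)` (the lemma `galBig_pow` in `GalBig.lean` is private; copy it, with
`a = 1/2` and `g^12`, or use it for `a = 2^(-1/6)`).
-/

namespace Pool.Agent.H42.OD

open Module Pool.Agent.H52.AD Pool.Agent.H52.CS

private lemma odBig_pow : ∃ g₀ : ℕ, ∀ g : ℕ, g₀ ≤ g →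
    ∀ m : ℕ, g ^ 9 ≤ m ^ 10 → (g : ℝ) ^ 12 ≤ 2 ^ m := by
  have ht : Filter.Tendsto (fun n : ℕ => (n : ℝ) ^ 24 * (1 / 2 : ℝ) ^ n) Filter.atTop (nhds 0) :=
    tendsto_pow_const_mul_const_pow_of_lt_one 24 (by norm_num) (by norm_num)
  have hev : ∀ᶠ n : ℕ in Filter.atTop, (n : ℝ) ^ 24 * (1 / 2 : ℝ) ^ n < 1 :=
    ht.eventually (gt_mem_nhds one_pos)
  obtain ⟨m₀, hm₀⟩ := Filter.eventually_atTop.1 hev
  refine ⟨m₀ ^ 2 + 1, fun g hg m hm => ?_⟩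
  have hg1 : 1 ≤ g := by omega
  have hmm : m₀ ≤ m := by
    by_contra hlt
    push Not at hlt
    have e1 : m ^ 10 < m₀ ^ 10 := Nat.pow_lt_pow_left hlt (by norm_num)
    have e2 : 1 ≤ m₀ := by omega
    have e3 : m₀ ^ 10 ≤ g ^ 9 := by
      calc m₀ ^ 10 ≤ m₀ ^ 18 := Nat.pow_le_pow_right e2 (by norm_num)
        _ = (m₀ ^ 2) ^ 9 := by ring
        _ ≤ g ^ 9 := Nat.pow_le_pow_left (by omega) 9
    omega
  have h4 : g ^ 2 ≤ m ^ 4 := by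
    have e1 : (g ^ 2) ^ 5 ≤ (m ^ 4) ^ 5 := by
      calc (g ^ 2) ^ 5 = g ^ 10 := by ring
        _ ≤ g ^ 18 := Nat.pow_le_pow_right hg1 (by norm_num)
        _ = (g ^ 9) ^ 2 := by ring
        _ ≤ (m ^ 10) ^ 2 := Nat.pow_le_pow_left hm 2
        _ = (m ^ 4) ^ 5 := by ring
    exact (Nat.pow_le_pow_iff_left (by norm_num)).1 e1
  have h5 : g ^ 12 ≤ m ^ 24 := by
    calc g ^ 12 = (g ^ 2) ^ 6 := by ring
      _ ≤ (m ^ 4) ^ 6 := Nat.pow_le_pow_left h4 6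
      _ = m ^ 24 := by ring
  have h5' : (g : ℝ) ^ 12 ≤ (m : ℝ) ^ 24 := by exact_mod_cast h5
  have h6 := hm₀ m hmm
  have h7 : (m : ℝ) ^ 24 ≤ 2 ^ m := by
    rw [one_div, inv_pow, ← div_eq_mul_inv, div_lt_one (by positivity)] at h6
    exact h6.le
  exact h5'.trans h7

theorem od_big : ∃ g₀ : ℕ, ∀ {X : Type} [Fintype X] {c : Equiv.Perm X}
    {𝒢 : Subgroup (Equiv.Perm X)} {g : ℕ} {W : Submodule ℚ (X → ℚ)}, Sys c 𝒢 g → Smp c 𝒢 W →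
    Gal 𝒢 W → ∀ x₀ : X, g₀ ≤ g → ¬ 4 ∣ Nat.card (Gm 𝒢 W) → 2 ≤ finrank ℚ W → g ^ 19 < finrank ℚ W ^ 20 →
    finrank ℚ W * (finrank ℚ (Fix 𝒢 x₀ W) / finrank ℚ (Endo 𝒢 W)) ≤ g →
    (Nat.card (Fail c 𝒢 W) : ℝ) ≤ 2 ^ g * (1 / (g : ℝ) ^ 2) := by
  classical
  obtain ⟨g₁, hg₁⟩ := odBig_pow
  refine ⟨g₁, ?_⟩
  intro X _ c 𝒢 g W hS hW hGal x₀ hg h4 hd2 hdg hng
  have hg1 : 1 ≤ g := hS.pos
  have hg0 : (0 : ℝ) < g := by exact_mod_cast hg1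
  have hν : finrank ℚ (Fix 𝒢 x₀ W) = finrank ℚ W := (fix_eq_dim hS hW x₀).2 hGal
  obtain ⟨n, hn⟩ := endo_dvd_dim hW
  have he := endo_pos hW
  rw [hν] at hng
  have hdiv : finrank ℚ W / finrank ℚ (Endo 𝒢 W) = n := by
    rw [hn]; exact Nat.mul_div_cancel_left n he
  rw [hdiv] at hng
  have hmain := od_fail hS hW hGal h4 hd2
  obtain ⟨d, hd⟩ : ∃ d, d = finrank ℚ W := ⟨_, rfl⟩
  obtain ⟨e, hee⟩ : ∃ e, e = finrank ℚ (Endo 𝒢 W) := ⟨_, rfl⟩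
  rw [← hee] at hmain
  rw [← hd] at hdg hng
  rw [← hd, ← hee] at hn
  have e3 : (g ^ 9) ^ 2 * g ^ 20 ≤ (e ^ 10) ^ 2 * g ^ 20 := by
    calc (g ^ 9) ^ 2 * g ^ 20 = (g ^ 19) ^ 2 := by ring
      _ ≤ (d ^ 20) ^ 2 := Nat.pow_le_pow_left hdg.le 2
      _ = (d * d) ^ 20 := by ring
      _ = (e * (d * n)) ^ 20 := by
          congr 1
          nth_rewrite 1 [hn]
          ring
      _ ≤ (e * g) ^ 20 := Nat.pow_le_pow_left (Nat.mul_le_mul_left e hng) 20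
      _ = (e ^ 10) ^ 2 * g ^ 20 := by ring
  have e4 : (g ^ 9) ^ 2 ≤ (e ^ 10) ^ 2 := Nat.le_of_mul_le_mul_right e3 (by positivity)
  have e5 := hg₁ g hg e ((Nat.pow_le_pow_iff_left (by norm_num)).1 e4)
  have hmain' : (Nat.card (Fail c 𝒢 W) : ℝ) ^ 6 * 2 ^ e ≤ (2 ^ g) ^ 6 := by
    exact_mod_cast hmain
  have h7 : ((Nat.card (Fail c 𝒢 W) : ℝ) * (g : ℝ) ^ 2) ^ 6 ≤ (2 ^ g) ^ 6 := by
    calc ((Nat.card (Fail c 𝒢 W) : ℝ) * (g : ℝ) ^ 2) ^ 6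
        = (Nat.card (Fail c 𝒢 W) : ℝ) ^ 6 * (g : ℝ) ^ 12 := by ring
      _ ≤ (Nat.card (Fail c 𝒢 W) : ℝ) ^ 6 * 2 ^ e :=
          mul_le_mul_of_nonneg_left e5 (by positivity)
      _ ≤ _ := hmain'
  have h8 : (Nat.card (Fail c 𝒢 W) : ℝ) * (g : ℝ) ^ 2 ≤ 2 ^ g :=
    (pow_le_pow_iff_left₀ (by positivity) (by positivity) (by norm_num)).1 h7
  rw [mul_one_div, le_div_iff₀ (by positivity)]
  exact h8

end Pool.Agent.H42.OD
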