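import Mathlib
import Pool.Agent.H52.CS.EndoTwo

/-!
# Endomorphism algebras in the Galois case, group order not divisible by four (module H42 OD END)

`W` simple with `2 ≤ dim W`, the order of the group `Gm 𝒢 W` not divisible by four: `dim Endo ≥ 2`.

PROOF.  Copy the proof of `endo_ge_two` in `Pool/Agent/H52/CS/EndoTwo.lean`.  There `Odd g` is only used (through
`gal_card_dvd`) to see that `m` is odd, where `|Gm| = 2 m`; here this is `h4`.  `n` is odd since `n ∣ m` (`dim_dvd`: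
`2 n ∣ |Gm|`).
-/

namespace Pool.Agent.H42.OD

open Module Pool.Agent.H52.AD Pool.Agent.H52.CS

/-- the argument for a finite group of operators of order `2 m`, `m` odd (copied from `CS/EndoTwo.lean`) -/
theorem endoG_aux {V : Type} [AddCommGroup V] [Module ℚ V] [FiniteDimensional ℚ V]
    (Γ : Subgroup (V ≃ₗ[ℚ] V)) [Fintype Γ] (hneg : LinearEquiv.neg ℚ ∈ Γ)
    (hodd : Odd (finrank ℚ V)) (m : ℕ) (hm : Odd m) (hcard : Nat.card Γ = 2 * m)
    (hsum : ∑ γ : Γ, LinearMap.trace ℚ V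
      (((γ : V ≃ₗ[ℚ] V) * (γ : V ≃ₗ[ℚ] V) : V ≃ₗ[ℚ] V) : V →ₗ[ℚ] V) = (Nat.card Γ : ℚ))
    (hirr : ∀ S : V →ₗ[ℚ] V, (∀ γ ∈ Γ, ∀ v, γ (S v) = S (γ v)) →
      S = 0 ∨ Function.Surjective S) :
    m = 1 := by
  classical
  obtain ⟨δ, hδ⟩ : ∃ δ : Γ →* ℚˣ, ∀ γ : Γ, δ γ = LinearEquiv.det (γ : V ≃ₗ[ℚ] V) :=
    ⟨LinearEquiv.det.comp Γ.subtype, fun _ => rfl⟩
  have hpm : ∀ γ : Γ, δ γ = 1 ∨ δ γ = -1 := by
    intro γ
    have h1 : (δ γ) ^ (Nat.card Γ) = 1 := by rw [← map_pow, pow_card_eq_one', map_one]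
    have h2 : ((δ γ : ℚˣ) : ℚ) ^ (Nat.card Γ) = 1 := by
      rw [← Units.val_pow_eq_pow_val, h1, Units.val_one]
    have h3 : |((δ γ : ℚˣ) : ℚ)| = 1 := by
      have := congrArg abs h2
      rw [abs_pow, abs_one] at this
      exact (pow_eq_one_iff_of_nonneg (abs_nonneg _) (Nat.card_pos.ne')).1 this
    rcases (abs_eq (by norm_num)).1 h3 with h | h
    · left
      exact Units.ext h
    · right
      exact Units.ext (by rw [h, Units.val_neg, Units.val_one])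
  obtain ⟨γ₀, hγ₀⟩ : ∃ γ₀ : Γ, (γ₀ : V ≃ₗ[ℚ] V) = LinearEquiv.neg ℚ :=
    ⟨⟨LinearEquiv.neg ℚ, hneg⟩, rfl⟩
  have hδ0 : δ γ₀ = -1 := by
    apply Units.ext
    rw [hδ, LinearEquiv.coe_det, hγ₀]
    have e : ((LinearEquiv.neg ℚ : V ≃ₗ[ℚ] V) : V →ₗ[ℚ] V) = (-1 : ℚ) • LinearMap.id := by
      ext v
      simp
    rw [e, LinearMap.det_smul, LinearMap.det_id, hodd.neg_one_pow]
    simp
  have hsq0 : γ₀ * γ₀ = 1 := by
    apply Subtype.ext
    rw [Subgroup.coe_mul, hγ₀]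
    ext v
    simp
  -- the two halves
  have hhalf : ∀ F : Γ → ℚ, (∀ γ, F (γ₀ * γ) = F γ) →
      ∑ γ : Γ, F γ = 2 * ∑ γ ∈ Finset.univ.filter (fun γ : Γ => δ γ = 1), F γ := by
    intro F hF
    rw [← Finset.sum_filter_add_sum_filter_not Finset.univ (fun γ : Γ => δ γ = 1), two_mul]
    congr 1
    refine Finset.sum_bij' (fun γ _ => γ₀ * γ) (fun γ _ => γ₀ * γ) ?_ ?_ ?_ ?_ ?_
    · intro γ hγ
      rw [Finset.mem_filter] at hγ ⊢
      refine ⟨Finset.mem_univ _, ?_⟩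
      rw [map_mul, hδ0, (hpm γ).resolve_left hγ.2]
      simp
    · intro γ hγ
      rw [Finset.mem_filter] at hγ ⊢
      refine ⟨Finset.mem_univ _, ?_⟩
      rw [map_mul, hδ0, hγ.2]
      intro h
      have h5 := congrArg Units.val h
      norm_num at h5
    · intro γ _
      rw [← mul_assoc, hsq0, one_mul]
    · intro γ _
      rw [← mul_assoc, hsq0, one_mul]
    · intro γ _
      exact (hF γ).symm
  -- the kernel
  obtain ⟨A, hA⟩ : ∃ A : Subgroup Γ, A = δ.ker := ⟨_, rfl⟩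
  have hAn : A.Normal := by rw [hA]; infer_instance
  have hmemA : ∀ γ : Γ, γ ∈ A ↔ δ γ = 1 := by
    intro γ
    rw [hA, MonoidHom.mem_ker]
  let _ : Fintype A := Fintype.ofFinite A
  have hA2 : ∀ F : Γ → ℚ, (∀ γ, F (γ₀ * γ) = F γ) → ∑ γ : Γ, F γ = 2 * ∑ a : A, F a := by
    intro F hF
    rw [hhalf F hF, Finset.sum_subtype (p := fun γ => γ ∈ A) (F := inferInstance) _
      (fun γ => by rw [Finset.mem_filter, hmemA]; simp)]
  have hcA : Nat.card A = m := by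
    have h1 := hA2 (fun _ => 1) (fun _ => rfl)
    rw [Finset.sum_const, Finset.sum_const, Finset.card_univ, Finset.card_univ,
      ← Nat.card_eq_fintype_card, ← Nat.card_eq_fintype_card, hcard] at h1
    simp only [nsmul_eq_mul, mul_one] at h1
    push_cast at h1
    have h2 : (m : ℚ) = (Nat.card A : ℚ) := by linarith
    exact_mod_cast h2.symm
  -- the sum of the traces
  obtain ⟨S, hS⟩ : ∃ S : V →ₗ[ℚ] V, S = ∑ a : A, (((a : Γ) : V ≃ₗ[ℚ] V) : V →ₗ[ℚ] V) := ⟨_, rfl⟩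
  have hSv : ∀ v, S v = ∑ a : A, ((a : Γ) : V ≃ₗ[ℚ] V) v := by
    intro v
    rw [hS, LinearMap.sum_apply]
    rfl
  have htr : (2 : ℚ) * LinearMap.trace ℚ V S = (Nat.card Γ : ℚ) := by
    rw [← hsum, hA2 (fun γ => LinearMap.trace ℚ V
      (((γ : V ≃ₗ[ℚ] V) * (γ : V ≃ₗ[ℚ] V) : V ≃ₗ[ℚ] V) : V →ₗ[ℚ] V)) ?_]
    · congr 1
      rw [hS, map_sum]
      have hb : Function.Bijective (fun a : A => a ^ 2) :=
        Nat.Coprime.pow_left_bijective (by rw [hcA]; exact hm.coprime_two_right)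
      rw [← hb.sum_comp (fun a : A => LinearMap.trace ℚ V (((a : Γ) : V ≃ₗ[ℚ] V) : V →ₗ[ℚ] V))]
      refine Finset.sum_congr rfl fun a _ => ?_
      simp only [pow_two, Subgroup.coe_mul]
    · intro γ
      congr 1
      ext v
      simp [hγ₀]
  have hcomm : ∀ γ ∈ Γ, ∀ v, γ (S v) = S (γ v) := by
    intro γ hγ v
    rw [hSv, hSv, map_sum]
    rw [← (MulAut.conjNormal (H := A) (⟨γ, hγ⟩ : Γ)).toEquiv.sum_comp
      (fun a : A => ((a : Γ) : V ≃ₗ[ℚ] V) (γ v))]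
    refine Finset.sum_congr rfl fun a _ => ?_
    change _ = (((MulAut.conjNormal (H := A) (⟨γ, hγ⟩ : Γ) a : A) : Γ) : V ≃ₗ[ℚ] V) (γ v)
    rw [MulAut.conjNormal_apply]
    simp
  rcases hirr S hcomm with h0 | h0
  · exfalso
    rw [h0, map_zero, mul_zero] at htr
    have : 0 < Nat.card Γ := Nat.card_pos
    have h2 : (0 : ℚ) < Nat.card Γ := by exact_mod_cast this
    linarith
  · -- every element of `A` is the identity
    have hb : ∀ b : A, b = 1 := by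
      intro b
      apply Subtype.ext
      apply Subtype.ext
      ext w
      obtain ⟨v, rfl⟩ := h0 w
      change ((b : Γ) : V ≃ₗ[ℚ] V) (S v) = S v
      rw [hSv, map_sum]
      rw [← Equiv.sum_comp (Equiv.mulLeft b) (fun a : A => ((a : Γ) : V ≃ₗ[ℚ] V) v)]
      refine Finset.sum_congr rfl fun a _ => ?_
      rfl
    rw [← hcA, Nat.card_eq_one_iff_unique]
    exact ⟨⟨fun a b => by rw [hb a, hb b]⟩, ⟨1⟩⟩

theorem endo_ge_two4 {X : Type} [Fintype X] {c : Equiv.Perm X} {𝒢 : Subgroup (Equiv.Perm X)} {g : ℕ}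
    {W : Submodule ℚ (X → ℚ)} (hS : Sys c 𝒢 g) (hW : Smp c 𝒢 W)
    (h4 : ¬ 4 ∣ Nat.card (Gm 𝒢 W)) (hd : 2 ≤ finrank ℚ W) : 2 ≤ finrank ℚ (Endo 𝒢 W) := by
  classical
  by_contra hlt
  have h1 : finrank ℚ (Endo 𝒢 W) = 1 := by
    have := endo_pos hW
    omega
  obtain ⟨n, hn, hdvd⟩ := dim_dvd hS hW
  rw [h1, one_mul] at hn
  obtain ⟨m, hm⟩ : 2 ∣ Nat.card (Gm 𝒢 W) := (dvd_mul_right 2 n).trans hdvd
  have hmodd : Odd m := by
    rw [← Nat.not_even_iff_odd]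
    rintro ⟨k, hk⟩
    apply h4
    rw [hm, hk]
    exact ⟨k, by ring⟩
  have hnm : n ∣ m := by
    rw [hm] at hdvd
    exact Nat.dvd_of_mul_dvd_mul_left (by norm_num) hdvd
  have hnodd : Odd n := Odd.of_dvd_nat hmodd hnm
  have hfin : Finite (Gr hW.2.2.1) := by
    unfold Gr
    infer_instance
  let _ : Fintype (Gr hW.2.2.1) := Fintype.ofFinite _
  have hsum := real_sum hW h1
  rw [← card_Gr hW.2.2.1] at hsum hm
  have hm1 : m = 1 := by
    refine endoG_aux (Gr hW.2.2.1) ?_ (by rw [hn]; exact hnodd) m hmodd hm hsum ?_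
    · rw [mem_Gr]
      refine ⟨c, hS.mem, fun f x => ?_⟩
      rw [LinearEquiv.neg_apply]
      have hc : c⁻¹ x = c x := by
        rw [Equiv.Perm.inv_eq_iff_eq, hS.cc]
      rw [hc, hW.2.1 f f.2 x]
      rfl
    · intro S hcomm
      have hst : Stb 𝒢 ((LinearMap.range S).map W.subtype) := by
        rintro π hπ f hf
        obtain ⟨w, hw, rfl⟩ := Submodule.mem_map.1 hf
        obtain ⟨v, rfl⟩ := hw
        obtain ⟨γ, hγ⟩ : ∃ γ : W ≃ₗ[ℚ] W, γ = rediso_op hW.2.2.1 ⟨π⁻¹, 𝒢.inv_mem hπ⟩ := ⟨_, rfl⟩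
        have hγm : γ ∈ Gr hW.2.2.1 := by
          rw [hγ]
          exact ⟨_, rfl⟩
        refine Submodule.mem_map.2 ⟨S (γ v), ⟨γ v, rfl⟩, ?_⟩
        rw [← hcomm γ hγm v]
        funext x
        change (γ (S v) : X → ℚ) x = (S v : X → ℚ) (π x)
        rw [hγ, rediso_op_apply, inv_inv]
      rcases hW.2.2.2 _ (Submodule.map_subtype_le W _) hst with h | h
      · left
        rw [← LinearMap.range_eq_bot]
        exact le_bot_iff.1 (schur_bot h)
      · right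
        rw [← LinearMap.range_eq_top, Submodule.eq_top_iff']
        intro w
        have h5 : (w : X → ℚ) ∈ (LinearMap.range S).map W.subtype := by
          rw [h]
          exact w.2
        obtain ⟨w', hw', hw''⟩ := Submodule.mem_map.1 h5
        have h6 : w' = w := Subtype.ext hw''
        rwa [← h6]
  rw [hm1] at hnm
  have : n = 1 := Nat.dvd_one.1 hnm
  omega

end Pool.Agent.H42.OD
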