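import Mathlib
import Pool.Agent.H52.AD.GenX
import Pool.Agent.H52.CS.Defs
import Pool.Agent.H52.CS.GalAb

/-!
# The order of the group for the spaces of a Galois subfield (module H42 OD GCF)

`K` a number field, `F` a subfield that is Galois over `ℚ`, `W` a stable space of functions on the embeddings of `K`
with `W ≤ VF F` (they depend on the restriction of the embedding to `F` only).  The number of the operators
`f ↦ f ∘ π` on `W`, `π ∈ autGrp K`, divides `[F : ℚ]`.

PROOF.  Let `ρ = rediso_op hst : 𝒢 →* (W ≃ₗ[ℚ] W)`, `𝒢 = autGrp K`; `|Gm 𝒢 W| = |range ρ|` (`rediso_card`) is the index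
of `ker ρ` (`Subgroup.index_ker`).  Fix an embedding `x₀` of `K` and let `S = {π ∈ 𝒢 | (π x₀) a = x₀ a for all a ∈ F}`.
If `π ∈ S` is composition with the automorphism `t` of `ℂ`, then `t` is the identity on `x₀(F)`, and `x(F) = x₀(F)` for
all embeddings `x` (`F` is normal over `ℚ`), so `(π x) a = x a` for `a ∈ F` and `f (π x) = f x` for all `f ∈ VF F`.
So `S ≤ ker ρ`, and it is enough that `[𝒢 : S] = [F : ℚ]`, or that it divides `[F : ℚ]` (`Subgroup.index_dvd_of_le`).
Index of `S`: by `galab_aut` (in `Pool/Agent/H52/CS/GalAb.lean`), for `π ∈ 𝒢` there is `π' ∈ Gal(F/ℚ)` with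
`(π x₀) a = x₀ (π' a)` for `a ∈ F`; it is unique, and `π ↦ π'` is a homomorphism (`(π σ x₀) a = π(x₀ (σ' a)) =
x₀ (π' σ' a)`) with kernel `S`, so `[𝒢 : S]` is the order of a subgroup of `Gal(F/ℚ)`, which has `[F : ℚ]` elements
(`IsGalois.card_aut_eq_finrank`, `Subgroup.card_subgroup_dvd_card`).
-/

open NumberField Module

namespace Pool.Agent.H42.OD

open Pool.Agent.H52.MF Pool.Agent.H52.AD Pool.Agent.H52.CS

/-- an embedding of a normal subfield is an automorphism followed by a given embedding -/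
private theorem gcf_aut {K : Type} [Field K] [NumberField K] (F : IntermediateField ℚ K)
    (hF : Normal ℚ F) (x : K →+* ℂ) (z : F →+* ℂ) (halg : Algebra.IsAlgebraic ℚ F) :
    ∃ s : F ≃ₐ[ℚ] F, ∀ a : F, x ((s a : F) : K) = z a := by
  obtain ⟨y, hy⟩ : ∃ y : F →ₐ[ℚ] ℂ, ∀ a : F, y a = z a := ⟨z.toRatAlgHom, fun _ => rfl⟩
  letI : Algebra F ℂ := (x.comp (algebraMap F K)).toAlgebra
  have ht : IsScalarTower ℚ F ℂ := IsScalarTower.of_algebraMap_eq (fun r => by
    rw [eq_ratCast, eq_ratCast, map_ratCast])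
  refine ⟨AlgEquiv.ofBijective (y.restrictNormal F)
    (AlgHom.normal_bijective ℚ F F (y.restrictNormal F)), fun a => ?_⟩
  have h := y.restrictNormal_commutes F a
  rw [← hy]
  exact h

theorem gm_dvd_gal {K : Type} [Field K] [NumberField K] (W : Submodule ℚ ((K →+* ℂ) → ℚ))
    (hst : Stb (autGrp K) W) (F : IntermediateField ℚ K) (hF : IsGalois ℚ F) (hWF : W ≤ VF F) :
    Nat.card (Gm (autGrp K) W) ∣ finrank ℚ F := by
  have hn : Normal ℚ F := hF.to_normal
  obtain ⟨x₀⟩ : Nonempty (K →+* ℂ) := inferInstance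
  have hex : ∀ π : autGrp K, ∃ s : F ≃ₐ[ℚ] F, ∀ a : F,
      x₀ ((s a : F) : K) = ((π : Equiv.Perm (K →+* ℂ)) x₀) (a : K) := fun π =>
    gcf_aut F hn x₀ (((π : Equiv.Perm (K →+* ℂ)) x₀).comp (algebraMap F K)) inferInstance
  choose κ hκ using hex
  have hone : κ 1 = 1 := by
    refine AlgEquiv.ext fun a => Subtype.ext (x₀.injective ?_)
    rw [hκ]
    rfl
  have hmul : ∀ π σ : autGrp K, κ (π * σ) = κ π * κ σ := by
    intro π σ
    refine AlgEquiv.ext fun a => Subtype.ext (x₀.injective ?_)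
    rw [hκ, AlgEquiv.mul_apply, hκ]
    obtain ⟨t, ht⟩ := π.2
    rw [Subgroup.coe_mul, Equiv.Perm.mul_apply, ht, autPerm_apply, autPerm_apply,
      RingHom.comp_apply, RingHom.comp_apply, hκ]
  let κ' : autGrp K →* (F ≃ₐ[ℚ] F) := { toFun := κ, map_one' := hone, map_mul' := hmul }
  have hker : κ'.ker ≤ (rediso_op hst).ker := by
    intro π hπ
    rw [MonoidHom.mem_ker] at hπ ⊢
    have hπ1 : κ π = 1 := hπ
    obtain ⟨t, ht⟩ := π.2
    have h1 : ∀ a : F, t (x₀ (a : K)) = x₀ (a : K) := by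
      intro a
      have h2 := hκ π a
      rw [hπ1, ht, autPerm_apply, RingHom.comp_apply] at h2
      exact h2.symm
    have h2 : ∀ (x : K →+* ℂ), ∀ a ∈ F, ((π : Equiv.Perm (K →+* ℂ)) x) a = x a := by
      intro x a ha
      obtain ⟨s, hs⟩ := gcf_aut F hn x₀ (x.comp (algebraMap F K)) inferInstance
      have h3 : x a = x₀ ((s ⟨a, ha⟩ : F) : K) := (hs ⟨a, ha⟩).symm
      rw [ht, autPerm_apply, RingHom.comp_apply, h3]
      exact h1 (s ⟨a, ha⟩)
    refine LinearEquiv.ext fun f => Subtype.ext (funext fun x => ?_)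
    rw [rediso_op_apply]
    refine hWF f.2 _ _ fun a ha => ?_
    have h3 := h2 ((π : Equiv.Perm (K →+* ℂ))⁻¹ x) a ha
    have h4 : (π : Equiv.Perm (K →+* ℂ)) ((π : Equiv.Perm (K →+* ℂ))⁻¹ x) = x := by simp
    rw [h4] at h3
    exact h3.symm
  rw [← rediso_card hst, ← Subgroup.index_ker]
  refine (Subgroup.index_dvd_of_le hker).trans ?_
  rw [Subgroup.index_ker, ← IsGalois.card_aut_eq_finrank ℚ F]
  exact Subgroup.card_subgroup_dvd_card _

end Pool.Agent.H42.OD
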