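import Mathlib
import Pool.Agent.H52.CS.SmallAb
import Pool.Agent.H52.CS.FewSmall
import Pool.Agent.H42.CM9.ThreeB
import Pool.Agent.H42.OD.EndoG
import Pool.Agent.H42.OD.Big
import Pool.Agent.H42.OD.GalCF

/-!
# Classes of Galois type with group order not divisible by four: the sum (H42 OD)
-/

namespace Pool.Agent.H42.OD

open Module Pool.Agent.H52.AD Pool.Agent.H52.CS

/-- The sum over a family in which the groups of the spaces of Galois type have order not divisible by four. -/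
theorem od_sum (ε : ℝ) (hε : 0 < ε) : ∃ g₀ : ℕ, ∀ {X : Type} [Fintype X] {c : Equiv.Perm X}
    {𝒢 : Subgroup (Equiv.Perm X)} {g : ℕ}, Sys c 𝒢 g → ∀ x₀ : X, g₀ ≤ g →
    ∀ 𝒲 : Finset (Submodule ℚ (X → ℚ)), (∀ W ∈ 𝒲, Smp c 𝒢 W) →
    (∀ W ∈ 𝒲, Gal 𝒢 W → ¬ 4 ∣ Nat.card (Gm 𝒢 W)) →
    ∑ W ∈ 𝒲, finrank ℚ W * (finrank ℚ (Fix 𝒢 x₀ W) / finrank ℚ (Endo 𝒢 W)) ≤ g →
    ∀ n₁ n₂ : ℕ, (∀ 𝒱 ⊆ 𝒲, (∀ W ∈ 𝒱, finrank ℚ W = 1) → 𝒱.card ≤ n₁) →
    (∀ 𝒱 ⊆ 𝒲, (∀ W ∈ 𝒱, finrank ℚ W = 2) → 𝒱.card ≤ n₂) →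
    ∑ W ∈ 𝒲, (Nat.card (Fail c 𝒢 W) : ℝ) ≤
      2 ^ g * (ε + 40 * n₁ / Real.sqrt g + 4400 * n₂ / g) := by
  classical
  obtain ⟨Y, hY2, hY⟩ := exists_Y (ε / 10) (by positivity)
  obtain ⟨g₁, hg₁⟩ := non_gal2
  obtain ⟨g₂, hg₂⟩ := bnd_g
  obtain ⟨g₃, hg₃⟩ := bnd_m Y (ε / 10) (by positivity)
  obtain ⟨g₄, hg₄⟩ := exists_g4 (ε / 10) (by positivity)
  obtain ⟨g₅, hg₅⟩ := gal_sum
  obtain ⟨g₆, hg₆⟩ := od_big
  obtain ⟨g₇, hg₇⟩ := gal_mid
  obtain ⟨g₈, hg₈⟩ := bnd_small 2 (by norm_num)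
  obtain ⟨D₂, hD₂⟩ := exists_nat_ge (10 / ε)
  refine ⟨g₁ + g₂ + g₃ + g₄ + g₅ + g₆ + g₇ + g₈ + D₂ + 4, ?_⟩
  intro X _ c 𝒢 g hS x₀ hg 𝒲 h𝒲 hG4 hsum n₁ n₂ hn₁ hn₂
  have hGe : ∀ W ∈ 𝒲, Gal 𝒢 W → 2 ≤ finrank ℚ W → 2 ≤ finrank ℚ (Endo 𝒢 W) := fun W hW hG hd =>
    endo_ge_two4 hS (h𝒲 W hW) (hG4 W hW hG) hd
  have hgR : (0 : ℝ) < g := by exact_mod_cast hS.pos
  have h2g : (0 : ℝ) < 2 ^ g := by positivity
  have hcard𝒲 : 𝒲.card ≤ g := by
    refine le_trans ?_ hsum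
    rw [Finset.card_eq_sum_ones]
    exact Finset.sum_le_sum fun W hW => six_mult_pos hS (h𝒲 W hW) x₀
  have hsplit := smallAb_cover 𝒲 (fun W => (Nat.card (Fail c 𝒢 W) : ℝ))
    (fun W _ => Nat.cast_nonneg _)
    (fun W => ¬ Gal 𝒢 W ∧ Y ≤ finrank ℚ W)
    (fun W : Submodule ℚ (X → ℚ) => 3 ≤ finrank ℚ W ∧ finrank ℚ W < Y)
    (fun W : Submodule ℚ (X → ℚ) => finrank ℚ W = 1)
    (fun W : Submodule ℚ (X → ℚ) => finrank ℚ W = 2)
    (fun W => Gal 𝒢 W ∧ 3 ≤ finrank ℚ W ∧ Y ≤ finrank ℚ W ∧ finrank ℚ W ^ 20 ≤ g ^ 19)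
    (fun W => Gal 𝒢 W ∧ 3 ≤ finrank ℚ W ∧ Y ≤ finrank ℚ W ∧ ¬ finrank ℚ W ^ 20 ≤ g ^ 19) (by
      intro W hW
      have h0 := six_pos (h𝒲 W hW)
      by_cases h1 : finrank ℚ W = 1
      · exact Or.inr (Or.inr (Or.inl h1))
      · by_cases h1' : finrank ℚ W = 2
        · exact Or.inr (Or.inr (Or.inr (Or.inl h1')))
        · by_cases h2 : finrank ℚ W < Y
          · exact Or.inr (Or.inl ⟨by omega, h2⟩)
          · by_cases h3 : Gal 𝒢 W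
            · by_cases h4 : finrank ℚ W ^ 20 ≤ g ^ 19
              · exact Or.inr (Or.inr (Or.inr (Or.inr (Or.inl ⟨h3, by omega, by omega, h4⟩))))
              · exact Or.inr (Or.inr (Or.inr (Or.inr (Or.inr ⟨h3, by omega, by omega, h4⟩))))
            · exact Or.inl ⟨h3, by omega⟩)
  -- not Galois, large
  have hA : ∑ W ∈ 𝒲.filter (fun W => ¬ Gal 𝒢 W ∧ Y ≤ finrank ℚ W), (Nat.card (Fail c 𝒢 W) : ℝ) ≤
      2 ^ g * (ε / 10 + ε / 10) := by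
    refine (hg₁ hS x₀ (by omega) Y hY2 _ ?_ ?_).trans ?_
    · intro W hW
      rw [Finset.mem_filter] at hW
      exact ⟨h𝒲 W hW.1, hW.2.1, hW.2.2⟩
    · exact (Finset.sum_le_sum_of_subset (Finset.filter_subset _ _)).trans hsum
    · have h1 := hg₄ g (by omega)
      gcongr
  -- small
  have hB : ∑ W ∈ 𝒲.filter (fun W : Submodule ℚ (X → ℚ) => 3 ≤ finrank ℚ W ∧ finrank ℚ W < Y),
      (Nat.card (Fail c 𝒢 W) : ℝ) ≤ 2 ^ g * (ε / 10) := by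
    have h1 : ∀ W ∈ 𝒲.filter (fun W : Submodule ℚ (X → ℚ) => 3 ≤ finrank ℚ W ∧ finrank ℚ W < Y),
        (Nat.card (Fail c 𝒢 W) : ℝ) ≤ 2 ^ g * (ε / 10 / g) := by
      intro W hW
      rw [Finset.mem_filter] at hW
      refine hg₃ hS (h𝒲 W hW.1) x₀ (by omega) hW.2.1 hW.2.2.le ?_
      have hle := fix_le_dim (𝒢 := 𝒢) (W := W) x₀
      have he := endo_pos (h𝒲 W hW.1)
      have h3 := hW.2.1
      by_cases hG : Gal 𝒢 W
      · have h5 := hGe W hW.1 hG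
        omega
      · have h5 : finrank ℚ (Fix 𝒢 x₀ W) ≠ finrank ℚ W :=
          fun h => hG ((fix_eq_dim hS (h𝒲 W hW.1) x₀).1 h)
        omega
    refine (Finset.sum_le_sum h1).trans ?_
    rw [Finset.sum_const, nsmul_eq_mul]
    have h2 : ((𝒲.filter (fun W : Submodule ℚ (X → ℚ) => 3 ≤ finrank ℚ W ∧
        finrank ℚ W < Y)).card : ℝ) ≤ g := by
      exact_mod_cast (Finset.card_filter_le _ _).trans hcard𝒲
    calc ((𝒲.filter (fun W : Submodule ℚ (X → ℚ) => 3 ≤ finrank ℚ W ∧ finrank ℚ W < Y)).card : ℝ) *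
          (2 ^ g * (ε / 10 / g)) ≤ g * (2 ^ g * (ε / 10 / g)) := by gcongr
      _ = 2 ^ g * (ε / 10) := by field_simp
  -- dimension one
  have hC : ∑ W ∈ 𝒲.filter (fun W : Submodule ℚ (X → ℚ) => finrank ℚ W = 1),
      (Nat.card (Fail c 𝒢 W) : ℝ) ≤ 2 ^ g * (40 * n₁ / Real.sqrt g) := by
    have h1 : ∀ W ∈ 𝒲.filter (fun W : Submodule ℚ (X → ℚ) => finrank ℚ W = 1),
        (Nat.card (Fail c 𝒢 W) : ℝ) ≤ 2 ^ g * (40 / Real.sqrt g) := by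
      intro W hW
      rw [Finset.mem_filter] at hW
      have h2 := hg₂ hS (h𝒲 W hW.1) (six_gal_one hS (h𝒲 W hW.1) x₀ hW.2) x₀ (by omega)
        (by rw [hW.2]; have := hS.pos; omega)
      rw [hW.2] at h2
      simpa using h2
    refine (Finset.sum_le_sum h1).trans ?_
    rw [Finset.sum_const, nsmul_eq_mul]
    have h2 : ((𝒲.filter (fun W : Submodule ℚ (X → ℚ) => finrank ℚ W = 1)).card : ℝ) ≤ n₁ := by
      exact_mod_cast hn₁ _ (Finset.filter_subset _ _) (fun W hW => (Finset.mem_filter.1 hW).2)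
    calc ((𝒲.filter (fun W : Submodule ℚ (X → ℚ) => finrank ℚ W = 1)).card : ℝ) *
          (2 ^ g * (40 / Real.sqrt g)) ≤ n₁ * (2 ^ g * (40 / Real.sqrt g)) := by gcongr
      _ = 2 ^ g * (40 * n₁ / Real.sqrt g) := by ring
  -- dimension two
  have hC2 : ∑ W ∈ 𝒲.filter (fun W : Submodule ℚ (X → ℚ) => finrank ℚ W = 2),
      (Nat.card (Fail c 𝒢 W) : ℝ) ≤ 2 ^ g * (4400 * n₂ / g) := by
    have hlog := smallAb_log
    have hlog0 : 0 ≤ Real.log (3 * 2) := Real.log_nonneg (by norm_num)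
    have h1 : ∀ W ∈ 𝒲.filter (fun W : Submodule ℚ (X → ℚ) => finrank ℚ W = 2),
        (Nat.card (Fail c 𝒢 W) : ℝ) ≤ 2 ^ g * (4400 / g) := by
      intro W hW
      rw [Finset.mem_filter] at hW
      by_cases hG : Gal 𝒢 W
      · have he := hGe W hW.1 hG
        have h2 := (hg₇ hS (h𝒲 W hW.1) hG x₀ (by omega) (by omega) (by omega) (by
          rw [hW.2]
          calc 2 ^ 20 ≤ 4 ^ 19 := by norm_num
            _ ≤ g ^ 19 := Nat.pow_le_pow_left (by omega) _)).1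
        refine h2.trans (mul_le_mul_of_nonneg_left ?_ h2g.le)
        rw [hW.2, ← mul_div_assoc]
        push_cast
        gcongr
        nlinarith
      · have h2 := hg₈ hS (h𝒲 W hW.1) hG x₀ (by omega) hW.2.le
        refine h2.trans (mul_le_mul_of_nonneg_left ?_ h2g.le)
        push_cast
        gcongr
        nlinarith
    refine (Finset.sum_le_sum h1).trans ?_
    rw [Finset.sum_const, nsmul_eq_mul]
    have h2 : ((𝒲.filter (fun W : Submodule ℚ (X → ℚ) => finrank ℚ W = 2)).card : ℝ) ≤ n₂ := by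
      exact_mod_cast hn₂ _ (Finset.filter_subset _ _) (fun W hW => (Finset.mem_filter.1 hW).2)
    calc ((𝒲.filter (fun W : Submodule ℚ (X → ℚ) => finrank ℚ W = 2)).card : ℝ) *
          (2 ^ g * (4400 / g)) ≤ n₂ * (2 ^ g * (4400 / g)) := by gcongr
      _ = 2 ^ g * (4400 * n₂ / g) := by ring
  -- Galois, middle
  have hD : ∑ W ∈ 𝒲.filter (fun W => Gal 𝒢 W ∧ 3 ≤ finrank ℚ W ∧ Y ≤ finrank ℚ W ∧
      finrank ℚ W ^ 20 ≤ g ^ 19), (Nat.card (Fail c 𝒢 W) : ℝ) ≤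
      2 ^ g * (ε / 10 + 2 * (ε / 10)) := by
    refine (hg₅ hS x₀ (by omega) Y hY2 _ ?_ ?_).trans ?_
    · intro W hW
      rw [Finset.mem_filter] at hW
      refine ⟨h𝒲 W hW.1, hW.2.1, ?_, hW.2.2.2.1, hW.2.2.2.2⟩
      have := hGe W hW.1 hW.2.1
      omega
    · exact (Finset.sum_le_sum_of_subset (Finset.filter_subset _ _)).trans hsum
    · have h1 := hg₄ g (by omega)
      have hY0 : (2 : ℝ) ≤ Y := by exact_mod_cast hY2
      have hlog : 0 ≤ Real.log (3 * Y) := Real.log_nonneg (by linarith)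
      have h3 : 0 ≤ Real.log (3 * Y) / Y := div_nonneg hlog (by linarith)
      have h4 : 768 * Real.log (3 * Y) / Y ≤ 2 * (ε / 10) := by
        have h5 : 400 * (Real.log (3 * Y) / Y) ≤ ε / 10 := by
          rw [← mul_div_assoc]
          exact hY
        rw [mul_div_assoc]
        linarith
      gcongr
  -- Galois, large
  have hE : ∑ W ∈ 𝒲.filter (fun W => Gal 𝒢 W ∧ 3 ≤ finrank ℚ W ∧ Y ≤ finrank ℚ W ∧
      ¬ finrank ℚ W ^ 20 ≤ g ^ 19), (Nat.card (Fail c 𝒢 W) : ℝ) ≤ 2 ^ g * (ε / 10) := by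
    have h1 : ∀ W ∈ 𝒲.filter (fun W => Gal 𝒢 W ∧ 3 ≤ finrank ℚ W ∧ Y ≤ finrank ℚ W ∧
        ¬ finrank ℚ W ^ 20 ≤ g ^ 19),
        (Nat.card (Fail c 𝒢 W) : ℝ) ≤ 2 ^ g * (1 / (g : ℝ) ^ 2) := by
      intro W hW
      rw [Finset.mem_filter] at hW
      exact hg₆ hS (h𝒲 W hW.1) hW.2.1 x₀ (by omega) (hG4 W hW.1 hW.2.1) (by omega) (by omega)
        ((Finset.single_le_sum (f := fun W : Submodule ℚ (X → ℚ) => finrank ℚ W *
          (finrank ℚ (Fix 𝒢 x₀ W) / finrank ℚ (Endo 𝒢 W))) (fun _ _ => Nat.zero_le _) hW.1).trans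
          hsum)
    refine (Finset.sum_le_sum h1).trans ?_
    rw [Finset.sum_const, nsmul_eq_mul]
    have h2 : ((𝒲.filter (fun W => Gal 𝒢 W ∧ 3 ≤ finrank ℚ W ∧ Y ≤ finrank ℚ W ∧
        ¬ finrank ℚ W ^ 20 ≤ g ^ 19)).card : ℝ) ≤ g := by
      exact_mod_cast (Finset.card_filter_le _ _).trans hcard𝒲
    have h3 : 10 / ε ≤ (g : ℝ) := by
      refine hD₂.trans ?_
      have : D₂ ≤ g := by omega
      exact_mod_cast this
    have h4 : 1 / (g : ℝ) ≤ ε / 10 := by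
      rw [div_le_div_iff₀ hgR (by norm_num)]
      rw [div_le_iff₀ hε] at h3
      linarith
    calc ((𝒲.filter (fun W => Gal 𝒢 W ∧ 3 ≤ finrank ℚ W ∧ Y ≤ finrank ℚ W ∧
          ¬ finrank ℚ W ^ 20 ≤ g ^ 19)).card : ℝ) * (2 ^ g * (1 / (g : ℝ) ^ 2)) ≤
          g * (2 ^ g * (1 / (g : ℝ) ^ 2)) := by gcongr
      _ = 2 ^ g * (1 / (g : ℝ)) := by field_simp
      _ ≤ 2 ^ g * (ε / 10) := by gcongr
  have hfin : 2 ^ g * (ε / 10 + ε / 10) + 2 ^ g * (ε / 10) +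
      2 ^ g * (40 * n₁ / Real.sqrt g) + 2 ^ g * (4400 * n₂ / g) +
      2 ^ g * (ε / 10 + 2 * (ε / 10)) + 2 ^ g * (ε / 10) ≤
      2 ^ g * (ε + 40 * n₁ / Real.sqrt g + 4400 * n₂ / g) := by
    have h8 : 0 ≤ 2 ^ g * ε := by positivity
    nlinarith
  linarith

open NumberField Pool.Agent.H52.MF Pool.Agent.H38.CM

/-- All CM fields in which the Galois CM subfields are abelian, small or of degree two modulo four. -/
theorem od_few (ε : ℝ) (hε : 0 < ε) : ∃ D : ℕ, 1 ≤ D ∧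
    ∀ (K : Type) [Field K] [NumberField K] [IsCMField K] (g : ℕ), finrank ℚ K = 2 * g → D ≤ g →
    (∀ F : IntermediateField ℚ K, IsCMField F → IsGalois ℚ F →
      (∀ σ τ : F ≃ₐ[ℚ] F, σ * τ = τ * σ) ∨ ¬ 4 ∣ finrank ℚ F ∨ D * finrank ℚ F ^ 2 ≤ g) →
    (Nat.card {Φ : Set (K →+* ℂ) // IsCMType Φ ∧ ∃ p, ¬ DivGen Φ p} : ℝ) ≤
      2 ^ g * (ε + 80 * Nat.card {F : IntermediateField ℚ K // IsCMField F ∧ finrank ℚ F = 2} /
        Real.sqrt g + 26400 * Nat.card {F : IntermediateField ℚ K //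
          IsCMField F ∧ (finrank ℚ F = 4 ∨ finrank ℚ F = 6)} / g) := by
  classical
  obtain ⟨g₁, hg₁⟩ := small_ab (ε / 4) (by positivity)
  obtain ⟨g₂, hg₂⟩ := bnd_g
  obtain ⟨g₃, hg₃⟩ := od_sum (ε / 4) (by positivity)
  obtain ⟨D₁, hD₁⟩ := exists_nat_ge ((320 / ε) ^ 2)
  refine ⟨g₁ + g₂ + g₃ + D₁ + 1, by omega, ?_⟩
  intro K _ _ _ g hK hg hGal
  obtain ⟨D, hD⟩ : ∃ D, D = g₁ + g₂ + g₃ + D₁ + 1 := ⟨_, rfl⟩
  rw [← hD] at hg hGal
  have hS := sys_cm g hK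
  have hc : ∀ x, cjp K x = ComplexEmbedding.conjugate x := fun x => rfl
  have hcard : 0 < Fintype.card (K →+* ℂ) := by
    rw [hS.card]
    have := hS.pos
    omega
  obtain ⟨x₀⟩ := Fintype.card_pos_iff.1 hcard
  obtain ⟨𝒲, h𝒲, hsum, hdim, hle⟩ := Pool.Agent.H42.CM9.bad_le_sum g hK x₀
  have hgR : (0 : ℝ) < g := by exact_mod_cast hS.pos
  have h2g : (0 : ℝ) < 2 ^ g := by positivity
  have hsq : 0 < Real.sqrt g := Real.sqrt_pos.2 hgR
  obtain ⟨a, ha⟩ : ∃ a, a = Nat.card {F : IntermediateField ℚ K // IsCMField F ∧ finrank ℚ F = 2} :=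
    ⟨_, rfl⟩
  obtain ⟨b, hb⟩ : ∃ b, b = Nat.card {F : IntermediateField ℚ K //
      IsCMField F ∧ (finrank ℚ F = 4 ∨ finrank ℚ F = 6)} := ⟨_, rfl⟩
  rw [← ha, ← hb]
  have hcnt1 : ∀ 𝒱 ⊆ 𝒲, (∀ W ∈ 𝒱, finrank ℚ W = 1) → 𝒱.card ≤ a * 2 := by
    intro 𝒱 h𝒱 h1
    rw [ha]
    exact fewSmall_count 𝒲 h𝒲 hdim _ 2 𝒱 h𝒱
      (fun W hW => fewSmall_one g hK W (h𝒲 W (h𝒱 hW)) (h1 W hW))
  have hcnt2 : ∀ 𝒱 ⊆ 𝒲, (∀ W ∈ 𝒱, finrank ℚ W = 2) → (∀ W ∈ 𝒱, Gal (autGrp K) W →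
      finrank ℚ (Endo (autGrp K) W) = finrank ℚ W) → 𝒱.card ≤ b * 6 := by
    intro 𝒱 h𝒱 h1 h2
    rw [hb]
    exact fewSmall_count 𝒲 h𝒲 hdim _ 6 𝒱 h𝒱
      (fun W hW => fewSmall_two g hK W (h𝒲 W (h𝒱 hW)) (h1 W hW) (h2 W hW))
  have hkey : ∀ 𝒲' ⊆ 𝒲, (∀ W ∈ 𝒲', Gal (autGrp K) W →
      finrank ℚ (Endo (autGrp K) W) = finrank ℚ W) →
      ∑ W ∈ 𝒲', (Nat.card (Fail (cjp K) (autGrp K) W) : ℝ) ≤
        2 ^ g * (ε / 4 + 80 * a / Real.sqrt g + 26400 * b / g) := by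
    intro 𝒲' h𝒲' hGe
    have h1 := hg₁ hS x₀ (by omega) 𝒲' (fun W hW => h𝒲 W (h𝒲' hW)) hGe
      ((Finset.sum_le_sum_of_subset h𝒲').trans hsum) (a * 2) (b * 6)
      (fun 𝒱 h𝒱 h1 => hcnt1 𝒱 (h𝒱.trans h𝒲') h1)
      (fun 𝒱 h𝒱 h1 => hcnt2 𝒱 (h𝒱.trans h𝒲') h1 (fun W hW => hGe W (h𝒱 hW)))
    refine h1.trans (le_of_eq ?_)
    push_cast
    ring
  refine hle.trans ?_
  have hnn : 0 ≤ 80 * (a : ℝ) / Real.sqrt g + 26400 * b / g := by positivity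
  by_cases hne : (𝒲.filter (fun W => Gal (autGrp K) W)).Nonempty
  · obtain ⟨W₀, hW₀⟩ := hne
    rw [Finset.mem_filter] at hW₀
    obtain ⟨F, hF1, hF2, hF3⟩ := gen_gal2 (cjp K) hc W₀ (h𝒲 W₀ hW₀.1) hW₀.2
    rcases hGal F hF1 hF2 with hab | h4 | h3
    · -- abelian case
      have h1 := hkey 𝒲 (Finset.Subset.refl _)
        (fun W hW hG => gal_ab (cjp K) W (h𝒲 W hW) F hF2 hab (hF3 W hG))
      refine h1.trans ?_
      refine mul_le_mul_of_nonneg_left ?_ h2g.le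
      linarith
    · -- degree two modulo four
      have hG4 : ∀ W ∈ 𝒲, Gal (autGrp K) W → ¬ 4 ∣ Nat.card (Gm (autGrp K) W) := by
        intro W hW hG h
        exact h4 (h.trans (gm_dvd_gal W (h𝒲 W hW).2.2.1 F hF2 (hF3 W hG)))
      have h1 := hg₃ hS x₀ (by omega) 𝒲 h𝒲 hG4 hsum (a * 2) (b * 6) hcnt1 (by
        intro 𝒱 h𝒱 h2
        refine hcnt2 𝒱 h𝒱 h2 (fun W hW hG => ?_)
        have h5 := endo_ge_two4 hS (h𝒲 W (h𝒱 hW)) (hG4 W (h𝒱 hW) hG) (by rw [h2 W hW])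
        have h6 := endo_dvd_dim (h𝒲 W (h𝒱 hW))
        rw [h2 W hW] at h6 ⊢
        have h7 := Nat.le_of_dvd (by norm_num) h6
        omega)
      refine h1.trans ?_
      refine mul_le_mul_of_nonneg_left ?_ h2g.le
      push_cast
      have h8 : 40 * ((a : ℝ) * 2) / Real.sqrt g = 80 * a / Real.sqrt g := by ring
      have h9 : 4400 * ((b : ℝ) * 6) / g = 26400 * b / g := by ring
      rw [h8, h9]
      linarith
    · -- small case
      have hD1 : (320 / ε) ^ 2 ≤ (D : ℝ) := by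
        refine hD₁.trans ?_
        have : D₁ ≤ D := by omega
        exact_mod_cast this
      have hA : ∑ W ∈ 𝒲.filter (fun W => Gal (autGrp K) W),
          (Nat.card (Fail (cjp K) (autGrp K) W) : ℝ) ≤ 2 ^ g * (ε / 4) := by
        have h1 := hdim (𝒲.filter (fun W => Gal (autGrp K) W)) (Finset.filter_subset _ _) (VF F)
          (fun W hW => hF3 W (Finset.mem_filter.1 hW).2)
        have h2 : ∑ W ∈ 𝒲.filter (fun W => Gal (autGrp K) W), finrank ℚ W ≤ finrank ℚ F :=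
          h1.trans (finrank_VF F)
        have h4 : ∀ W ∈ 𝒲.filter (fun W => Gal (autGrp K) W),
            (Nat.card (Fail (cjp K) (autGrp K) W) : ℝ) ≤
              2 ^ g * (40 * finrank ℚ W / Real.sqrt g) := by
          intro W hW
          obtain ⟨hW1, hW2⟩ := Finset.mem_filter.1 hW
          refine hg₂ hS (h𝒲 W hW1) hW2 x₀ (by omega) ?_
          have h5 : finrank ℚ W ≤ finrank ℚ F :=
            (Submodule.finrank_mono (hF3 W hW2)).trans (finrank_VF F)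
          calc finrank ℚ W ^ 2 ≤ finrank ℚ F ^ 2 := Nat.pow_le_pow_left h5 2
            _ ≤ D * finrank ℚ F ^ 2 := Nat.le_mul_of_pos_left _ (by omega)
            _ ≤ g := h3
        refine (Finset.sum_le_sum h4).trans ?_
        rw [← Finset.mul_sum, ← Finset.sum_div, ← Finset.mul_sum]
        refine mul_le_mul_of_nonneg_left ?_ h2g.le
        rw [div_le_iff₀ hsq]
        have h6 : (∑ W ∈ 𝒲.filter (fun W => Gal (autGrp K) W), (finrank ℚ W : ℝ)) ≤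
            finrank ℚ F := by
          exact_mod_cast h2
        have h7 : (320 / ε * finrank ℚ F : ℝ) ≤ Real.sqrt g := by
          apply Real.le_sqrt_of_sq_le
          have h8 : ((D * finrank ℚ F ^ 2 : ℕ) : ℝ) ≤ g := by exact_mod_cast h3
          push_cast at h8
          calc (320 / ε * finrank ℚ F : ℝ) ^ 2 = (320 / ε) ^ 2 * (finrank ℚ F : ℝ) ^ 2 := by ring
            _ ≤ (D : ℝ) * (finrank ℚ F : ℝ) ^ 2 := by gcongr
            _ ≤ g := h8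
        calc 40 * (∑ W ∈ 𝒲.filter (fun W => Gal (autGrp K) W), (finrank ℚ W : ℝ)) ≤
            80 * (finrank ℚ F : ℝ) := by
              have h9 : (0 : ℝ) ≤ finrank ℚ F := Nat.cast_nonneg _
              linarith
          _ = ε / 4 * (320 / ε * finrank ℚ F) := by field_simp; ring
          _ ≤ ε / 4 * Real.sqrt g := by gcongr
      have hB := hkey (𝒲.filter (fun W => ¬ Gal (autGrp K) W)) (Finset.filter_subset _ _)
        (fun W hW hG => absurd hG (Finset.mem_filter.1 hW).2)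
      have hsplit := Finset.sum_filter_add_sum_filter_not 𝒲 (fun W => Gal (autGrp K) W)
        (fun W => (Nat.card (Fail (cjp K) (autGrp K) W) : ℝ))
      have hfin : 2 ^ g * (ε / 4) + 2 ^ g * (ε / 4 + 80 * a / Real.sqrt g + 26400 * b / g) ≤
          2 ^ g * (ε + 80 * a / Real.sqrt g + 26400 * b / g) := by
        rw [← mul_add]
        refine mul_le_mul_of_nonneg_left ?_ h2g.le
        linarith
      linarith
  · rw [Finset.not_nonempty_iff_eq_empty] at hne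
    have h1 := hkey 𝒲 (Finset.Subset.refl _) (by
      intro W hW hG
      exfalso
      have h2 : W ∈ 𝒲.filter (fun W => Gal (autGrp K) W) := Finset.mem_filter.2 ⟨hW, hG⟩
      rw [hne] at h2
      exact absurd h2 (Finset.notMem_empty W))
    refine h1.trans ?_
    refine mul_le_mul_of_nonneg_left ?_ h2g.le
    linarith

end Pool.Agent.H42.OD
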