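import Mathlib
import Pool.Agent.H42.CM9.NormDeg
import Pool.Agent.H42.OD.Asm

/-!
# The final statement (H42 OD)
-/

open NumberField Module

namespace Pool.Agent.H42.OD

open Pool.Agent.H38.CM Pool.Agent.H52.MF Pool.Agent.H52.AD

theorem od_final : ∃ C : ℝ, ∀ ε : ℝ, 0 < ε → ∃ D : ℕ,
    ∀ (K : Type) [Field K] [NumberField K] [IsCMField K] (g N a b : ℕ),
      finrank ℚ K = 2 * g → D ≤ g →
      N = Subfield.relfinrank (⨆ z : K →+* ℂ, (maximalRealSubfield K).map z)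
        (⨆ z : K →+* ℂ, z.fieldRange) →
      a = Nat.card {F : IntermediateField ℚ K // IsCMField F ∧ finrank ℚ F = 2} →
      b = Nat.card {F : IntermediateField ℚ K //
        IsCMField F ∧ (finrank ℚ F = 4 ∨ finrank ℚ F = 6)} →
      (4 ≤ N ∨ ∀ F : IntermediateField ℚ K, IsCMField F → IsGalois ℚ F →
        (∀ σ τ : F ≃ₐ[ℚ] F, σ * τ = τ * σ) ∨ ¬ 4 ∣ finrank ℚ F ∨ D * finrank ℚ F ^ 2 ≤ g) →
      Nat.card {Φ : Set (K →+* ℂ) // IsCMType Φ} = 2 ^ g ∧
      (Nat.card {Φ : Set (K →+* ℂ) // IsCMType Φ ∧ ∃ p, ¬ DivGen Φ p} : ℝ) ≤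
        2 ^ g * ((if 4 ≤ N then (g : ℝ) ^ (-(1 / 50) : ℝ) else ε) +
          (if 8 ≤ N then 0 else C * (a / Real.sqrt g + b / g))) := by
  obtain ⟨g₁, h₁⟩ := Pool.Agent.H42.CM9.three_case
  obtain ⟨C₂, g₂, h₂⟩ := Pool.Agent.H42.CM9.two_case
  refine ⟨max C₂ 26400, fun ε hε => ?_⟩
  obtain ⟨D₀, hD₀, h₀⟩ := od_few ε hε
  refine ⟨D₀ + g₁ + g₂, ?_⟩
  intro K _ _ _ g N a b hK hg hN ha hb hcond
  obtain ⟨x⟩ : Nonempty (K →+* ℂ) := inferInstance
  refine ⟨card_cmTypes g hK, ?_⟩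
  have hgR : (0 : ℝ) ≤ g := Nat.cast_nonneg g
  have h2g : (0 : ℝ) ≤ 2 ^ g := by positivity
  have hC0 : 0 ≤ max C₂ 26400 := le_trans (by norm_num) (le_max_right _ _)
  have hag : 0 ≤ (a : ℝ) / Real.sqrt g := by positivity
  have hbg : 0 ≤ (b : ℝ) / g := by positivity
  by_cases h8 : 8 ≤ N
  · have h4 : 4 ≤ N := by omega
    rw [if_pos h4, if_pos h8, add_zero]
    exact h₁ K g hK (by omega) x (Pool.Agent.H42.CM9.blk_lt_of_eight g hK (hN ▸ h8) x)
  · rw [if_neg h8]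
    by_cases h4 : 4 ≤ N
    · rw [if_pos h4]
      refine (h₂ K g hK (by omega) x
        (Pool.Agent.H42.CM9.blk_le_of_four g hK (hN ▸ h4) x)).trans ?_
      refine mul_le_mul_of_nonneg_left ?_ h2g
      rw [← hb]
      have h3 : C₂ * (b : ℝ) / g ≤ max C₂ 26400 * (b / g) := by
        rw [mul_div_assoc]
        exact mul_le_mul_of_nonneg_right (le_max_left _ _) hbg
      have h5 : 0 ≤ max C₂ 26400 * (a / Real.sqrt g) := mul_nonneg hC0 hag
      rw [mul_add]
      linarith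
    · rw [if_neg h4]
      have hcond' : ∀ F : IntermediateField ℚ K, IsCMField F → IsGalois ℚ F →
          (∀ σ τ : F ≃ₐ[ℚ] F, σ * τ = τ * σ) ∨ ¬ 4 ∣ finrank ℚ F ∨
            D₀ * finrank ℚ F ^ 2 ≤ g := by
        intro F hF1 hF2
        rcases hcond with h | h
        · exact absurd h h4
        · rcases h F hF1 hF2 with h5 | h5 | h5
          · exact Or.inl h5
          · exact Or.inr (Or.inl h5)
          · refine Or.inr (Or.inr (le_trans (Nat.mul_le_mul_right _ ?_) h5))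
            omega
      refine (h₀ K g hK (by omega) hcond').trans ?_
      refine mul_le_mul_of_nonneg_left ?_ h2g
      rw [← ha, ← hb]
      have h3 : 26400 * (b : ℝ) / g ≤ max C₂ 26400 * (b / g) := by
        rw [mul_div_assoc]
        exact mul_le_mul_of_nonneg_right (le_max_right _ _) hbg
      have h5 : 80 * (a : ℝ) / Real.sqrt g ≤ max C₂ 26400 * (a / Real.sqrt g) := by
        rw [mul_div_assoc]
        refine mul_le_mul_of_nonneg_right (le_trans (by norm_num) (le_max_right _ _)) hag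
      rw [mul_add]
      linarith

end Pool.Agent.H42.OD
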