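import Mathlib
import Pool.Agent.H42.OD.Final

/-!
# Odd dimensions (H42 OD)
-/

open NumberField Module

namespace Pool.Agent.H42.OD

open Pool.Agent.H38.CM Pool.Agent.H52.MF Pool.Agent.H52.AD

lemma finrank_dvd' {K : Type} [Field K] [NumberField K] (F : IntermediateField ℚ K) :
    finrank ℚ F ∣ finrank ℚ K := by
  refine ⟨finrank F K, ?_⟩
  exact (finrank_mul_finrank ℚ F K).symm

/-- A field of degree `2g`, `g` odd, has at most one quadratic subfield. -/
lemma quad_le {K : Type} [Field K] [NumberField K] {g : ℕ} (hK : finrank ℚ K = 2 * g) (hg : Odd g)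
    (F₁ F₂ : IntermediateField ℚ K) (h₁ : finrank ℚ F₁ = 2) (h₂ : finrank ℚ F₂ = 2) : F₂ ≤ F₁ := by
  intro x hx
  have h3 : finrank F₁ K = g := by
    have h := finrank_mul_finrank ℚ F₁ K
    rw [h₁, hK] at h
    omega
  have hint : IsIntegral F₁ x := IsIntegral.of_finite F₁ x
  have h4 : (minpoly F₁ x).natDegree ∣ g := by
    rw [← h3]
    exact minpoly.degree_dvd hint
  have h5 : (minpoly F₁ x).natDegree ≤ 2 := by
    have hQ : (minpoly ℚ x).natDegree ≤ 2 := by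
      have h6 : minpoly ℚ (⟨x, hx⟩ : F₂) = minpoly ℚ x :=
        (minpoly.algebraMap_eq (B' := K) (algebraMap F₂ K).injective (⟨x, hx⟩ : F₂)).symm
      rw [← h6, ← h₂]
      exact minpoly.natDegree_le _
    have h7 : minpoly F₁ x ∣ (minpoly ℚ x).map (algebraMap ℚ F₁) :=
      minpoly.dvd_map_of_isScalarTower ℚ F₁ x
    have h8 : (minpoly ℚ x).map (algebraMap ℚ F₁) ≠ 0 :=
      (Polynomial.map_ne_zero_iff (algebraMap ℚ F₁).injective).2
        (minpoly.ne_zero (IsIntegral.of_finite ℚ x))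
    refine (Polynomial.natDegree_le_of_dvd h7 h8).trans ?_
    rw [Polynomial.natDegree_map]
    exact hQ
  have h6 : 0 < (minpoly F₁ x).natDegree := minpoly.natDegree_pos hint
  have h7 : (minpoly F₁ x).natDegree ≠ 2 := by
    intro h
    rw [h] at h4
    rcases hg with ⟨k, hk⟩
    omega
  have h8 : (minpoly F₁ x).natDegree = 1 := by omega
  obtain ⟨y, hy⟩ := minpoly.natDegree_eq_one_iff.1 h8
  rw [← hy]
  exact y.2

lemma card_quad_le {K : Type} [Field K] [NumberField K] {g : ℕ} (hK : finrank ℚ K = 2 * g)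
    (hg : Odd g) :
    Nat.card {F : IntermediateField ℚ K // IsCMField F ∧ finrank ℚ F = 2} ≤ 1 := by
  have : Subsingleton {F : IntermediateField ℚ K // IsCMField F ∧ finrank ℚ F = 2} := by
    refine ⟨fun F₁ F₂ => Subtype.ext (le_antisymm ?_ ?_)⟩
    · exact quad_le hK hg _ _ F₂.2.2 F₁.2.2
    · exact quad_le hK hg _ _ F₁.2.2 F₂.2.2
  exact Finite.card_le_one_iff_subsingleton.2 this

theorem od_odd : ∃ C : ℝ, ∀ ε : ℝ, 0 < ε → ∃ D : ℕ,
    ∀ (K : Type) [Field K] [NumberField K] [IsCMField K] (g N a b : ℕ),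
      finrank ℚ K = 2 * g → D ≤ g →
      N = Subfield.relfinrank (⨆ z : K →+* ℂ, (maximalRealSubfield K).map z)
        (⨆ z : K →+* ℂ, z.fieldRange) →
      a = Nat.card {F : IntermediateField ℚ K // IsCMField F ∧ finrank ℚ F = 2} →
      b = Nat.card {F : IntermediateField ℚ K //
        IsCMField F ∧ (finrank ℚ F = 4 ∨ finrank ℚ F = 6)} →
      Nat.card {Φ : Set (K →+* ℂ) // IsCMType Φ} = 2 ^ g ∧
      ((4 ≤ N ∨ ∀ F : IntermediateField ℚ K, IsCMField F → IsGalois ℚ F →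
        (∀ σ τ : F ≃ₐ[ℚ] F, σ * τ = τ * σ) ∨ ¬ 4 ∣ finrank ℚ F ∨ D * finrank ℚ F ^ 2 ≤ g) →
      (Nat.card {Φ : Set (K →+* ℂ) // IsCMType Φ ∧ ∃ p, ¬ DivGen Φ p} : ℝ) ≤
        2 ^ g * ((if 4 ≤ N then (g : ℝ) ^ (-(1 / 50) : ℝ) else ε) +
          (if 8 ≤ N then 0 else C * (a / Real.sqrt g + b / g)))) ∧
      (Odd g → (Nat.card {Φ : Set (K →+* ℂ) // IsCMType Φ ∧ ∃ p, ¬ DivGen Φ p} : ℝ) ≤
        2 ^ g * (ε + C * b / g)) ∧
      (Odd g → ¬ 3 ∣ g →
        (Nat.card {Φ : Set (K →+* ℂ) // IsCMType Φ ∧ ∃ p, ¬ DivGen Φ p} : ℝ) ≤ 2 ^ g * ε) := by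
  obtain ⟨C, hC⟩ := od_final
  refine ⟨max C 0, fun ε hε => ?_⟩
  obtain ⟨D₁, h₁⟩ := hC ε hε
  obtain ⟨D₂, h₂⟩ := hC (ε / 2) (by positivity)
  have t1 : Filter.Tendsto (fun g : ℕ => (g : ℝ) ^ (-(1 / 50) : ℝ)) Filter.atTop (nhds 0) :=
    (tendsto_rpow_neg_atTop (by norm_num)).comp tendsto_natCast_atTop_atTop
  have t2 : Filter.Tendsto (fun g : ℕ => max C 0 * (1 / Real.sqrt g)) Filter.atTop (nhds 0) := by
    have h : Filter.Tendsto (fun g : ℕ => Real.sqrt g) Filter.atTop Filter.atTop :=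
      Real.tendsto_sqrt_atTop.comp tendsto_natCast_atTop_atTop
    have h' := (tendsto_const_nhds (x := (1 : ℝ))).div_atTop h
    simpa using h'.const_mul (max C 0)
  obtain ⟨D₃, h₃⟩ := Filter.eventually_atTop.1 (t1.eventually (gt_mem_nhds (half_pos hε)))
  obtain ⟨D₄, h₄⟩ := Filter.eventually_atTop.1 (t2.eventually (gt_mem_nhds (half_pos hε)))
  refine ⟨D₁ + D₂ + D₃ + D₄, ?_⟩
  intro K _ _ _ g N a b hK hg hN ha hb
  have hgR : (0 : ℝ) ≤ g := Nat.cast_nonneg g
  have h2g : (0 : ℝ) ≤ 2 ^ g := by positivity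
  have hab : 0 ≤ (a : ℝ) / Real.sqrt g + b / g := by positivity
  have hCC : C * ((a : ℝ) / Real.sqrt g + b / g) ≤ max C 0 * (a / Real.sqrt g + b / g) :=
    mul_le_mul_of_nonneg_right (le_max_left _ _) hab
  have key : Odd g → (Nat.card {Φ : Set (K →+* ℂ) // IsCMType Φ ∧ ∃ p, ¬ DivGen Φ p} : ℝ) ≤
      2 ^ g * (ε + max C 0 * b / g) := by
    intro hodd
    have hcond : ∀ F : IntermediateField ℚ K, IsCMField F → IsGalois ℚ F →
        (∀ σ τ : F ≃ₐ[ℚ] F, σ * τ = τ * σ) ∨ ¬ 4 ∣ finrank ℚ F ∨ D₂ * finrank ℚ F ^ 2 ≤ g := by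
      intro F _ _
      refine Or.inr (Or.inl ?_)
      intro h4
      have h5 := h4.trans (finrank_dvd' F)
      rw [hK] at h5
      rcases hodd with ⟨k, hk⟩
      omega
    refine (h₂ K g N a b hK (by omega) hN ha hb (Or.inr hcond)).2.trans ?_
    refine mul_le_mul_of_nonneg_left ?_ h2g
    have ha1 : (a : ℝ) ≤ 1 := by
      have := card_quad_le hK hodd
      rw [← ha] at this
      exact_mod_cast this
    have h5 : (if 4 ≤ N then (g : ℝ) ^ (-(1 / 50) : ℝ) else ε / 2) ≤ ε / 2 := by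
      split_ifs
      · exact (h₃ g (by omega)).le
      · exact le_refl _
    have h6 : (if 8 ≤ N then 0 else C * ((a : ℝ) / Real.sqrt g + b / g)) ≤
        max C 0 * (a / Real.sqrt g + b / g) := by
      split_ifs
      · exact mul_nonneg (le_max_right _ _) hab
      · exact hCC
    have h7 : (a : ℝ) / Real.sqrt g ≤ 1 / Real.sqrt g :=
      div_le_div_of_nonneg_right ha1 (Real.sqrt_nonneg _)
    have h8 := h₄ g (by omega)
    have h9 : max C 0 * ((a : ℝ) / Real.sqrt g) ≤ max C 0 * (1 / Real.sqrt g) :=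
      mul_le_mul_of_nonneg_left h7 (le_max_right _ _)
    have h10 : max C 0 * ((a : ℝ) / Real.sqrt g + b / g) =
        max C 0 * (a / Real.sqrt g) + max C 0 * b / g := by
      rw [mul_add, mul_div_assoc (max C 0) (b : ℝ)]
    linarith
  refine ⟨card_cmTypes g hK, fun hcond => ?_, key, fun hodd h3 => ?_⟩
  · have hcond' : 4 ≤ N ∨ ∀ F : IntermediateField ℚ K, IsCMField F → IsGalois ℚ F →
        (∀ σ τ : F ≃ₐ[ℚ] F, σ * τ = τ * σ) ∨ ¬ 4 ∣ finrank ℚ F ∨ D₁ * finrank ℚ F ^ 2 ≤ g := by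
      rcases hcond with h | h
      · exact Or.inl h
      · refine Or.inr fun F hF1 hF2 => ?_
        rcases h F hF1 hF2 with h5 | h5 | h5
        · exact Or.inl h5
        · exact Or.inr (Or.inl h5)
        · refine Or.inr (Or.inr (le_trans (Nat.mul_le_mul_right _ ?_) h5))
          omega
    refine (h₁ K g N a b hK (by omega) hN ha hb hcond').2.trans ?_
    refine mul_le_mul_of_nonneg_left ?_ h2g
    split_ifs <;> linarith
  · refine (key hodd).trans ?_
    have hb0 : b = 0 := by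
      rw [hb, Nat.card_eq_zero]
      left
      refine ⟨?_⟩
      rintro ⟨F, -, h4 | h6⟩
      · have h5 := finrank_dvd' F
        rw [hK, h4] at h5
        rcases hodd with ⟨k, hk⟩
        omega
      · have h5 := finrank_dvd' F
        rw [hK, h6] at h5
        omega
    rw [hb0]
    simp

end Pool.Agent.H42.OD
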