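import Pool.Agent.H42.OD.OddG

/-!
# Definitions for the statement (H42 OD)
-/

open NumberField Module Pool.Agent.H38.CM

namespace Pool.Agent.H42.OD

/-- The degree `[L : L₀]`, `L` the compositum of all `z(K)`, `L₀` the compositum of all `z(K₀)`, `z : K → ℂ`, `K₀` the
maximal real subfield of `K`. -/
noncomputable def ClosDeg (K : Type) [Field K] [NumberField K] : ℕ :=
  Subfield.relfinrank (⨆ z : K →+* ℂ, (maximalRealSubfield K).map z) (⨆ z : K →+* ℂ, z.fieldRange)

/-- The number of the CM subfields of `K` whose degree lies in `s`. -/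
noncomputable def NumCM (K : Type) [Field K] [NumberField K] (s : Set ℕ) : ℕ :=
  Nat.card {F : IntermediateField ℚ K // IsCMField F ∧ finrank ℚ F ∈ s}

/-- The number of the CM types `Φ` of `K` with `¬ DivGen Φ p` for some `p`. -/
noncomputable def NumBad (K : Type) [Field K] [NumberField K] : ℕ :=
  Nat.card {Φ : Set (K →+* ℂ) // IsCMType Φ ∧ ∃ p, ¬ DivGen Φ p}

/-- The number of the CM types `Φ` of `K`. -/
noncomputable def NumTypes (K : Type) [Field K] [NumberField K] : ℕ :=
  Nat.card {Φ : Set (K →+* ℂ) // IsCMType Φ}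

/-- The automorphism group of `F` is abelian. -/
def AutAb (F : Type) [Field F] [Algebra ℚ F] : Prop := ∀ σ τ : F ≃ₐ[ℚ] F, σ * τ = τ * σ

/-- Every CM subfield `F` of `K` that is Galois over `ℚ` is abelian over `ℚ`, or has degree not divisible by `4`, or
satisfies `D [F : ℚ]² ≤ g`. -/
def GalCond (K : Type) [Field K] [NumberField K] (D g : ℕ) : Prop :=
  ∀ F : IntermediateField ℚ K, IsCMField F → IsGalois ℚ F →
    AutAb F ∨ ¬ 4 ∣ finrank ℚ F ∨ D * finrank ℚ F ^ 2 ≤ g

end Pool.Agent.H42.OD
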